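import Mathlib

/-!
# Circles of radius `α (1 - |z|)`, functions continuous on the open disc: module statements
-/

set_option autoImplicit false

namespace Pool.Agent.Lib.MP_9de1de_an.Q2

open MeasureTheory Set Filter Topology
open scoped ContDiff

/-- parametric integrals of smooth functions are smooth -/
def ParamStmt : Prop := ∀ (Φ : (ℝ × ℝ) × ℝ → ℝ), ContDiff ℝ ∞ Φ → ∀ a b : ℝ,
  ContDiff ℝ ∞ (fun x : ℝ × ℝ => ∫ u in a..b, Φ (x, u))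

/-- smooth solution of a Volterra equation of the second kind -/
def VolterraStmt : Prop := ∀ (N : ℝ × ℝ → ℝ) (h : ℝ → ℝ) (e T : ℝ), ContDiff ℝ ∞ N →
  ContDiff ℝ ∞ h → e < T → (∀ c ≤ e, h c = 0) →
  ∃ w : ℝ → ℝ, ContDiff ℝ ∞ w ∧ (∀ c ≤ e, w c = 0) ∧
    ∀ c ≤ T, w c = h c + ∫ s in e..c, N (c, s) * w s

/-- Abel's operator; `h` vanishes near `-∞` -/
noncomputable def AJ (h : ℝ → ℝ) (c : ℝ) : ℝ := ∫ u : ℝ, h (c - u ^ 2)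

/-- the operator of the first kind `∫ w(s) √(A - s) K(A, s) ds` -/
noncomputable def AK (K : ℝ × ℝ → ℝ) (w : ℝ → ℝ) (A : ℝ) : ℝ :=
  ∫ u : ℝ, u ^ 2 * w (A - u ^ 2) * K (A, A - u ^ 2)

/-- the kernel of the composition -/
noncomputable def MM (K : ℝ × ℝ → ℝ) (p : ℝ × ℝ) : ℝ :=
  ∫ θ in (-Real.pi)..Real.pi,
    Real.sin θ ^ 2 * K (p.2 + (p.1 - p.2) * Real.sin θ ^ 2, p.2)

/-- `J J` is `π` times the integral -/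
def JJStmt : Prop := ∀ (h : ℝ → ℝ) (e : ℝ), Continuous h → (∀ c ≤ e, h c = 0) →
  ∀ c, e ≤ c → AJ (AJ h) c = Real.pi * ∫ s in e..c, h s

/-- `J` after the operator of the first kind -/
def JKStmt : Prop := ∀ (K : ℝ × ℝ → ℝ) (w : ℝ → ℝ) (e : ℝ), Continuous K → Continuous w →
  (∀ c ≤ e, w c = 0) → ∀ c, e ≤ c →
    AJ (AK K w) c = (1 / 2) * ∫ s in e..c, w s * (c - s) * MM K (c, s)

/-- the equation of the first kind has a smooth solution -/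
def AbelStmt : Prop := ∀ (K : ℝ × ℝ → ℝ) (g : ℝ → ℝ) (e T : ℝ), ContDiff ℝ ∞ K →
  ContDiff ℝ ∞ g → (∀ p, K p ≠ 0) → e < T → (∀ c ≤ e, g c = 0) →
  ∃ w : ℝ → ℝ, ContDiff ℝ ∞ w ∧ (∀ c ≤ e, w c = 0) ∧ ∀ A ≤ T, AK K w A = g A

/-- the functional whose vanishing is the condition on circles -/
noncomputable def GG (β v : ℝ → ℝ) (A : ℝ) : ℝ :=
  ∫ s in (β A)..A, v s * Real.sqrt ((A - s) * (s - β A))

/-- one step of the extension -/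
def StepStmt : Prop := ∀ (β v : ℝ → ℝ) (A₀ E E' η : ℝ), ContDiff ℝ ∞ β → ContDiff ℝ ∞ v →
  A₀ < E → E < E' → 0 < η → (∀ A ∈ Icc E E', β A < E) → (∀ A ∈ Ioc A₀ E, β A < A) →
  (∀ A ∈ Ioc A₀ E, GG β v A = 0) →
  ∃ v' : ℝ → ℝ, ContDiff ℝ ∞ v' ∧ (∀ s ≤ E - η, v' s = v s) ∧ ∀ A ∈ Ioc A₀ E', GG β v' A = 0

/-- the extension up to `1` -/
def LimitStmt : Prop := ∀ (β v : ℝ → ℝ) (A₀ : ℝ) (E : ℕ → ℝ) (η : ℝ), ContDiff ℝ ∞ β →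
  ContDiff ℝ ∞ v → A₀ < E 0 → 0 < η → StrictMono E → (∀ n, E n < 1) → Tendsto E atTop (𝓝 1) →
  (∀ n, ∀ A ∈ Icc (E n) (E (n + 1)), β A < E n) → (∀ A, A₀ < A → A < 1 → β A < A) →
  (∀ A ∈ Ioc A₀ (E 0), GG β v A = 0) →
  ∃ v' : ℝ → ℝ, ContDiffOn ℝ ∞ v' (Iio 1) ∧ (∀ s ≤ E 0 - η, v' s = v s) ∧
    ∀ A, A₀ < A → A < 1 → GG β v' A = 0

/-- the circle integral of a radial function -/
def CircleStmt : Prop := ∀ (F v : ℝ → ℝ) (z : ℂ) (r : ℝ), (∀ s < 1, HasDerivAt F (v s) s) →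
  ContinuousOn v (Iio 1) → 0 < ‖z‖ → 0 < r → ‖z‖ + r < 1 →
  circleIntegral (fun ζ : ℂ => ((F (‖ζ‖ ^ 2) : ℝ) : ℂ)) z r =
    Complex.I * (z / (‖z‖ : ℂ) ^ 2) *
      ((∫ s in ((‖z‖ - r) ^ 2)..((‖z‖ + r) ^ 2),
        v s * Real.sqrt (((‖z‖ + r) ^ 2 - s) * (s - (‖z‖ - r) ^ 2)) : ℝ) : ℂ)

/-- the theorem: radial data with compact support in `0 < |z| < α` can be prescribed -/
def MainStmt : Prop := ∀ α : ℝ, 0 < α → α < 1 → ∀ g : ℝ → ℝ, ContDiff ℝ ∞ g →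
  (∃ p q : ℝ, 0 < p ∧ q < α ∧ ∀ t, t ≤ p ∨ q ≤ t → g t = 0) →
  ∃ F : ℝ → ℝ, ContDiffOn ℝ ∞ F (Iio 1) ∧
    (∀ z : ℂ, ‖z‖ ≤ α → F (‖z‖ ^ 2) = g ‖z‖) ∧
    ∀ z : ℂ, ‖z‖ < 1 → circleIntegral (fun ζ : ℂ => ((F (‖ζ‖ ^ 2) : ℝ) : ℂ)) z
      (α * (1 - ‖z‖)) = 0

end Pool.Agent.Lib.MP_9de1de_an.Q2
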