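import Mathlib
import Pool.Agent.Lib.MP_9de1de_an.Q2.Defs

/-!
# Abel's equation of the first kind
-/

set_option autoImplicit false

namespace Pool.Agent.Lib.MP_9de1de_an.Q2

open MeasureTheory Set Filter Topology
open scoped ContDiff

/-- partial derivative in the first variable -/
noncomputable def ablD (Φ : ℝ × ℝ → ℝ) (p : ℝ × ℝ) : ℝ := fderiv ℝ Φ p (1, 0)

theorem abl_D_smooth {Φ : ℝ × ℝ → ℝ} (h : ContDiff ℝ ∞ Φ) : ContDiff ℝ ∞ (ablD Φ) :=
  (h.fderiv_right (m := ∞) (by simp)).clm_apply contDiff_const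

theorem abl_D_hasDerivAt {Φ : ℝ × ℝ → ℝ} (h : ContDiff ℝ ∞ Φ) (c s : ℝ) :
    HasDerivAt (fun x => Φ (x, s)) (ablD Φ (c, s)) c := by
  have h1 : HasFDerivAt Φ (fderiv ℝ Φ (c, s)) (c, s) :=
    (h.differentiable (by simp) (c, s)).hasFDerivAt
  exact h1.comp_hasDerivAt c ((hasDerivAt_id c).prodMk (hasDerivAt_const c s))

/-- derivative of an integral with variable upper end and parameter -/
theorem abl_leibniz {Φ : ℝ × ℝ → ℝ} (h : ContDiff ℝ ∞ Φ) (e c₀ : ℝ) :
    HasDerivAt (fun c => ∫ s in e..c, Φ (c, s))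
      (Φ (c₀, c₀) + ∫ s in e..c₀, ablD Φ (c₀, s)) c₀ := by
  have hc := h.continuous
  have hD := (abl_D_smooth h).continuous
  have h1 : HasDerivAt (fun c => ∫ s in e..c₀, Φ (c, s)) (∫ s in e..c₀, ablD Φ (c₀, s)) c₀ := by
    obtain ⟨C, hC⟩ := ((isCompact_Icc (a := c₀ - 1) (b := c₀ + 1)).prod
      (isCompact_uIcc (a := e) (b := c₀))).exists_bound_of_continuousOn hD.continuousOn
    refine (intervalIntegral.hasDerivAt_integral_of_dominated_loc_of_deriv_le
      (F := fun c s => Φ (c, s)) (F' := fun c s => ablD Φ (c, s))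
      (s := Icc (c₀ - 1) (c₀ + 1)) (bound := fun _ => C)
      (Icc_mem_nhds (by linarith) (by linarith)) ?_ ?_ ?_ ?_ ?_ ?_).2
    · exact Eventually.of_forall fun x =>
        (hc.comp (by fun_prop : Continuous fun s : ℝ => (x, s))).aestronglyMeasurable
    · exact (hc.comp (by fun_prop : Continuous fun s : ℝ => (c₀, s))).intervalIntegrable _ _
    · exact (hD.comp (by fun_prop : Continuous fun s : ℝ => (c₀, s))).aestronglyMeasurable
    · exact Eventually.of_forall fun t ht x hx => hC (x, t) ⟨hx, uIoc_subset_uIcc ht⟩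
    · exact intervalIntegrable_const
    · exact Eventually.of_forall fun t _ x _ => abl_D_hasDerivAt h x t
  have h2 : HasDerivAt (fun c => ∫ s in c₀..c, Φ (c, s)) (Φ (c₀, c₀)) c₀ := by
    set β : ℝ → ℝ := fun c => ∫ v in (0 : ℝ)..1, Φ (c, c₀ + (c - c₀) * v) with hβ
    have hβc : Continuous β := by
      apply intervalIntegral.continuous_parametric_intervalIntegral_of_continuous'
      exact hc.comp (by fun_prop)
    have e1 : (fun c => ∫ s in c₀..c, Φ (c, s)) = fun c => (c - c₀) * β c := by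
      funext c
      have e2 := intervalIntegral.mul_integral_comp_add_mul
        (a := 0) (b := 1) (f := fun s => Φ (c, s)) (c - c₀) c₀
      simp only [mul_zero, add_zero, mul_one, add_sub_cancel] at e2
      rw [hβ]
      exact e2.symm
    have e3 : β c₀ = Φ (c₀, c₀) := by
      simp [hβ]
    rw [e1, ← e3, hasDerivAt_iff_tendsto_slope]
    have e4 : Tendsto β (𝓝[≠] c₀) (𝓝 (β c₀)) := (hβc.tendsto c₀).mono_left nhdsWithin_le_nhds
    refine e4.congr' ?_
    filter_upwards [self_mem_nhdsWithin] with x hx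
    have hx' : x - c₀ ≠ 0 := sub_ne_zero.mpr hx
    rw [slope_def_field]
    simp only [sub_self, zero_mul, sub_zero]
    field_simp
  have h3 := (h1.add h2)
  rw [add_comm (Φ (c₀, c₀))]
  refine h3.congr_of_eventuallyEq (Eventually.of_forall fun c => ?_)
  simp only [Pi.add_apply]
  rw [intervalIntegral.integral_add_adjacent_intervals]
  · exact (hc.comp (by fun_prop : Continuous fun s : ℝ => (c, s))).intervalIntegrable _ _
  · exact (hc.comp (by fun_prop : Continuous fun s : ℝ => (c, s))).intervalIntegrable _ _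

theorem abl_cut {φ : ℝ → ℝ} {R x : ℝ} (hR : 0 < R) (hx : x ≤ R ^ 2)
    (h0 : ∀ u, x ≤ u ^ 2 → φ u = 0) : ∫ u : ℝ, φ u = ∫ u in (-R)..R, φ u := by
  symm
  apply intervalIntegral.integral_eq_integral_of_support_subset
  intro u hu
  have h1 : ¬ (x ≤ u ^ 2) := fun h => hu (h0 u h)
  push Not at h1
  have h2 : u ^ 2 < R ^ 2 := lt_of_lt_of_le h1 hx
  have h3 := abs_lt_of_sq_lt_sq h2 hR.le
  rw [abs_lt] at h3
  exact ⟨h3.1, h3.2.le⟩

theorem abl_AJ {h : ℝ → ℝ} {e : ℝ} (h0 : ∀ c ≤ e, h c = 0) {R c : ℝ} (hR : 0 < R)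
    (hc : c - e ≤ R ^ 2) : AJ h c = ∫ u in (-R)..R, h (c - u ^ 2) :=
  abl_cut hR hc fun u hu => h0 _ (by linarith)

theorem abl_AK {K : ℝ × ℝ → ℝ} {w : ℝ → ℝ} {e : ℝ} (h0 : ∀ c ≤ e, w c = 0) {R A : ℝ}
    (hR : 0 < R) (hA : A - e ≤ R ^ 2) :
    AK K w A = ∫ u in (-R)..R, u ^ 2 * w (A - u ^ 2) * K (A, A - u ^ 2) :=
  abl_cut hR hA fun u hu => by rw [h0 _ (by linarith)]; ring

theorem abl_deriv_zero {f : ℝ → ℝ} {e : ℝ} (hf : ContDiff ℝ ∞ f) (h0 : ∀ c ≤ e, f c = 0) :
    ∀ c ≤ e, deriv f c = 0 := by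
  intro c hc
  have h1 : HasDerivWithinAt f (deriv f c) (Iic c) c :=
    (hf.differentiable (by simp) c).hasDerivAt.hasDerivWithinAt
  have h2 : HasDerivWithinAt f 0 (Iic c) c :=
    (hasDerivWithinAt_const c (Iic c) (0 : ℝ)).congr (fun x hx => h0 x (le_trans hx hc)) (h0 c hc)
  exact (uniqueDiffWithinAt_Iic c).eq_deriv _ h1 h2

theorem abl_deriv_smooth {f : ℝ → ℝ} (hf : ContDiff ℝ ∞ f) : ContDiff ℝ ∞ (deriv f) :=
  (contDiff_infty_iff_deriv.mp hf).2

theorem abl_zero_of_deriv {f f' : ℝ → ℝ} {e T : ℝ} (hd : ∀ c, HasDerivAt f (f' c) c)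
    (h0 : f e = 0) (h1 : ∀ c, e ≤ c → c ≤ T → f' c = 0) : ∀ c, e ≤ c → c ≤ T → f c = 0 := by
  intro c hc hcT
  have h2 := constant_of_has_deriv_right_zero (f := f) (a := e) (b := T)
    (fun x _ => (hd x).continuousAt.continuousWithinAt)
    (fun x hx => by
      have h3 := (hd x).hasDerivWithinAt (s := Ici x)
      rwa [h1 x hx.1 hx.2.le] at h3)
  rw [h2 c ⟨hc, hcT⟩, h0]

theorem abl_MM_diag (K : ℝ × ℝ → ℝ) (c : ℝ) : MM K (c, c) = Real.pi * K (c, c) := by
  unfold MM
  simp only [sub_self, zero_mul, add_zero]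
  rw [intervalIntegral.integral_mul_const, integral_sin_sq]
  simp

/-- the equation of the first kind has a smooth solution -/
theorem abel (hP : ParamStmt) (hV : VolterraStmt) (hjj : JJStmt) (hjk : JKStmt) : AbelStmt := by
  intro K g e T hK hg hK0 heT hg0
  set R : ℝ := T - e + 1 with hRdef
  have hR1 : 1 < R := by rw [hRdef]; linarith
  have hR : 0 < R := by linarith
  have hRR : R ≤ R ^ 2 := by nlinarith
  have hRc : ∀ c, c ≤ T → c - e ≤ R ^ 2 := fun c hc => by
    have : c - e ≤ R := by rw [hRdef]; linarith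
    linarith
  -- the right-hand side
  set P : ℝ → ℝ := fun c => ∫ u in (-R)..R, g (c - u ^ 2) with hPdef
  have hPs : ContDiff ℝ ∞ P := by
    have h1 := hP (fun q => g (q.1.1 - q.2 ^ 2)) (hg.comp (by fun_prop)) (-R) R
    exact h1.comp (by fun_prop : ContDiff ℝ ∞ fun c : ℝ => (c, (0 : ℝ)))
  have hPJ : ∀ c, c ≤ T → AJ g c = P c := fun c hc => abl_AJ hg0 hR (hRc c hc)
  have hP0 : ∀ c ≤ e, P c = 0 := by
    intro c hc
    simp only [hPdef]
    rw [intervalIntegral.integral_congr (g := fun _ => (0 : ℝ))]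
    · simp
    · intro u _
      exact hg0 _ (by nlinarith [sq_nonneg u])
  have hP1s := abl_deriv_smooth hPs
  have hP10 := abl_deriv_zero hPs hP0
  have hP2s := abl_deriv_smooth hP1s
  have hP20 := abl_deriv_zero hP1s hP10
  -- the kernel
  set M : ℝ × ℝ → ℝ := MM K with hMdef
  have hMs : ContDiff ℝ ∞ M := by
    have h1 := hP (fun q => Real.sin q.2 ^ 2 *
      K (q.1.2 + (q.1.1 - q.1.2) * Real.sin q.2 ^ 2, q.1.2)) (by
        apply ContDiff.mul
        · exact (Real.contDiff_sin.comp contDiff_snd).pow 2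
        · apply hK.comp
          apply ContDiff.prodMk
          · apply ContDiff.add
            · fun_prop
            · apply ContDiff.mul
              · fun_prop
              · exact (Real.contDiff_sin.comp contDiff_snd).pow 2
          · fun_prop) (-Real.pi) Real.pi
    exact h1
  set H : ℝ × ℝ → ℝ := fun p => (p.1 - p.2) * M p with hHdef
  have hHs : ContDiff ℝ ∞ H := ContDiff.mul (by fun_prop) hMs
  have hH1s := abl_D_smooth hHs
  have hH2s := abl_D_smooth hH1s
  have hH1 : ∀ c, ablD H (c, c) = Real.pi * K (c, c) := by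
    intro c
    have h1 := abl_D_hasDerivAt hHs c c
    have h2 : HasDerivAt (fun x => H (x, c)) (1 * M (c, c) + (c - c) * ablD M (c, c)) c :=
      ((hasDerivAt_id c).sub_const c).mul (abl_D_hasDerivAt hMs c c)
    rw [h1.unique h2, hMdef, abl_MM_diag]
    ring
  have hpi : Real.pi ≠ 0 := Real.pi_ne_zero
  obtain ⟨w, hws, hw0, hw⟩ := hV
    (fun p => - ablD (ablD H) p / (Real.pi * K (p.1, p.1)))
    (fun c => 2 * deriv (deriv P) c / (Real.pi * K (c, c))) e T
    (by
      apply ContDiff.div hH2s.neg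
      · exact contDiff_const.mul (hK.comp (by fun_prop))
      · intro p
        exact mul_ne_zero hpi (hK0 _))
    (by
      apply ContDiff.div (contDiff_const.mul hP2s)
      · exact contDiff_const.mul (hK.comp (by fun_prop))
      · intro p
        exact mul_ne_zero hpi (hK0 _))
    heT
    (by
      intro c hc
      rw [hP20 c hc]
      simp)
  refine ⟨w, hws, hw0, ?_⟩
  have hmul : ∀ {Ψ : ℝ × ℝ → ℝ}, ContDiff ℝ ∞ Ψ → ContDiff ℝ ∞ (fun p : ℝ × ℝ => w p.2 * Ψ p) :=
    fun hΨ => ContDiff.mul (hws.comp (by fun_prop)) hΨ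
  have hmulD : ∀ {Ψ : ℝ × ℝ → ℝ}, ContDiff ℝ ∞ Ψ → ∀ c s,
      ablD (fun p : ℝ × ℝ => w p.2 * Ψ p) (c, s) = w s * ablD Ψ (c, s) := by
    intro Ψ hΨ c s
    have h1 := abl_D_hasDerivAt (hmul hΨ) c s
    have h2 : HasDerivAt (fun x => w s * Ψ (x, s)) (w s * ablD Ψ (c, s)) c :=
      (abl_D_hasDerivAt hΨ c s).const_mul (w s)
    exact h1.unique h2
  -- second derivative
  have hF1 : ∀ c, HasDerivAt (fun c => ∫ s in e..c, w s * ablD H (c, s))
      (w c * (Real.pi * K (c, c)) + ∫ s in e..c, w s * ablD (ablD H) (c, s)) c := by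
    intro c
    have h1 := abl_leibniz (hmul hH1s) e c
    simp only [hmulD hH1s, hH1] at h1
    exact h1
  have hF : ∀ c, HasDerivAt (fun c => ∫ s in e..c, w s * H (c, s))
      (∫ s in e..c, w s * ablD H (c, s)) c := by
    intro c
    have h1 := abl_leibniz (hmul hHs) e c
    simp only [hmulD hHs] at h1
    have h2 : H (c, c) = 0 := by simp [hHdef]
    rw [h2, mul_zero, zero_add] at h1
    exact h1
  have hvol : ∀ c ≤ T, w c * (Real.pi * K (c, c)) + ∫ s in e..c, w s * ablD (ablD H) (c, s) =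
      2 * deriv (deriv P) c := by
    intro c hc
    have h1 := hw c hc
    have h2 : ∫ s in e..c, - ablD (ablD H) (c, s) / (Real.pi * K (c, c)) * w s =
        - (1 / (Real.pi * K (c, c))) * ∫ s in e..c, w s * ablD (ablD H) (c, s) := by
      rw [← intervalIntegral.integral_const_mul]
      apply intervalIntegral.integral_congr
      intro s _
      simp only
      ring
    simp only at h1
    rw [h2] at h1
    have h3 : Real.pi * K (c, c) ≠ 0 := mul_ne_zero hpi (hK0 _)
    rw [h1]
    generalize Real.pi * K (c, c) = m at h3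
    generalize (∫ s in e..c, w s * ablD (ablD H) (c, s)) = I
    have h4 : (2 * deriv (deriv P) c / m + -(1 / m) * I) * m + I =
        2 * deriv (deriv P) c * (m / m) - I * (m / m) + I := by ring
    rw [h4, div_self h3]
    ring
  have hE1 : ∀ c, e ≤ c → c ≤ T →
      (∫ s in e..c, w s * ablD H (c, s)) - 2 * deriv P c = 0 := by
    apply abl_zero_of_deriv
      (f' := fun c => (w c * (Real.pi * K (c, c)) + ∫ s in e..c, w s * ablD (ablD H) (c, s)) -
        2 * deriv (deriv P) c)
    · intro c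
      exact (hF1 c).sub (((hP1s.differentiable (by simp) c).hasDerivAt).const_mul 2)
    · simp [hP10 e le_rfl]
    · intro c _ hc
      rw [hvol c hc, sub_self]
  have hE : ∀ c, e ≤ c → c ≤ T → (∫ s in e..c, w s * H (c, s)) - 2 * P c = 0 := by
    apply abl_zero_of_deriv
      (f' := fun c => (∫ s in e..c, w s * ablD H (c, s)) - 2 * deriv P c)
    · intro c
      exact (hF c).sub (((hPs.differentiable (by simp) c).hasDerivAt).const_mul 2)
    · simp [hP0 e le_rfl]
    · exact hE1
  -- back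
  set Q : ℝ → ℝ := fun A => ∫ u in (-R)..R, u ^ 2 * w (A - u ^ 2) * K (A, A - u ^ 2) with hQdef
  have hQK : ∀ A ≤ T, AK K w A = Q A := fun A hA => abl_AK hw0 hR (hRc A hA)
  have hQc : Continuous Q := by
    apply intervalIntegral.continuous_parametric_intervalIntegral_of_continuous'
    have h1 := hws.continuous
    have h2 := hK.continuous
    fun_prop
  have hQ0 : ∀ A ≤ e, Q A = 0 := by
    intro A hA
    simp only [hQdef]
    rw [intervalIntegral.integral_congr (g := fun _ => (0 : ℝ))]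
    · simp
    · intro u _
      simp only
      rw [hw0 _ (by nlinarith [sq_nonneg u])]
      ring
  have hAK0 : ∀ A ≤ e, AK K w A = 0 := fun A hA => by
    rw [hQK A (by linarith), hQ0 A hA]
  set D : ℝ → ℝ := fun A => Q A - g A with hDdef
  have hDc : Continuous D := hQc.sub hg.continuous
  have hD0 : ∀ c ≤ e, D c = 0 := fun c hc => by simp only [hDdef]; rw [hQ0 c hc, hg0 c hc, sub_self]
  have hAJD : ∀ c ≤ T, AJ D c = 0 := by
    intro c hc
    rcases le_or_gt e c with hec | hec
    · have h1 : AJ (AK K w) c = AJ g c := by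
        rw [hjk K w e hK.continuous hws.continuous hw0 c hec, hPJ c hc]
        have h2 := hE c hec hc
        have h3 : ∫ s in e..c, w s * (c - s) * MM K (c, s) = ∫ s in e..c, w s * H (c, s) := by
          apply intervalIntegral.integral_congr
          intro s _
          simp only [hHdef, hMdef]
          ring
        rw [h3]
        linarith
      rw [abl_AJ hAK0 hR (hRc c hc), abl_AJ hg0 hR (hRc c hc)] at h1
      rw [abl_AJ hD0 hR (hRc c hc)]
      simp only [hDdef]
      rw [intervalIntegral.integral_sub]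
      · rw [← h1, sub_eq_zero]
        apply intervalIntegral.integral_congr
        intro u _
        simp only
        rw [hQK _ (by nlinarith [sq_nonneg u])]
      · exact (hQc.comp (by fun_prop)).intervalIntegrable _ _
      · exact (hg.continuous.comp (by fun_prop)).intervalIntegrable _ _
    · unfold AJ
      have h4 : (fun u : ℝ => D (c - u ^ 2)) = fun _ => 0 := by
        funext u
        exact hD0 _ (by nlinarith [sq_nonneg u])
      rw [h4]
      simp
  have hint : ∀ c, e ≤ c → c ≤ T → ∫ s in e..c, D s = 0 := by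
    intro c hec hc
    have h1 := hjj D e hDc hD0 c hec
    have h2 : AJ (AJ D) c = 0 := by
      have h4 : (fun u : ℝ => AJ D (c - u ^ 2)) = fun _ => 0 := by
        funext u
        exact hAJD _ (by nlinarith [sq_nonneg u])
      unfold AJ at h4 ⊢
      rw [h4]
      simp
    rw [h2] at h1
    rcases mul_eq_zero.mp h1.symm with h3 | h3
    · exact absurd h3 hpi
    · exact h3
  have hDz : ∀ c ≤ T, D c = 0 := by
    intro c hc
    rcases le_or_gt c e with hce | hce
    · exact hD0 c hce
    · have h1 : HasDerivAt (fun c => ∫ s in e..c, D s) (D c) c :=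
        intervalIntegral.integral_hasDerivAt_right (hDc.intervalIntegrable _ _)
          (hDc.stronglyMeasurableAtFilter _ _) hDc.continuousAt
      have hmem : c ∈ Icc e T := ⟨hce.le, hc⟩
      have h2 : HasDerivWithinAt (fun c => ∫ s in e..c, D s) 0 (Icc e T) c :=
        (hasDerivWithinAt_const c (Icc e T) (0 : ℝ)).congr (fun x hx => hint x hx.1 hx.2)
          (hint c hmem.1 hmem.2)
      exact ((uniqueDiffOn_Icc heT) c hmem).eq_deriv _ h1.hasDerivWithinAt h2
  intro A hA
  have h1 := hDz A hA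
  simp only [hDdef] at h1
  rw [hQK A hA]
  linarith

end Pool.Agent.Lib.MP_9de1de_an.Q2
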