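import Mathlib
import Pool.Agent.Lib.MP_9de1de_an.Q2.Defs

/-!
# Circle integrals of radial functions
-/

set_option autoImplicit false

namespace Pool.Agent.Lib.MP_9de1de_an.Q2

open MeasureTheory Set Filter Topology
open scoped ContDiff

/-- integration by parts on the upper half circle and substitution `s = a + b cos t` -/
theorem cir_subst {v : ℝ → ℝ} {a b : ℝ} (hb : 0 < b) (hv : ContinuousOn v (Icc (a - b) (a + b))) :
    ∫ s in (a - b)..(a + b), v s * Real.sqrt ((a + b - s) * (s - (a - b))) =
      b ^ 2 * ∫ t in (0 : ℝ)..Real.pi, Real.sin t ^ 2 * v (a + b * Real.cos t) := by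
  have hmem : ∀ t : ℝ, a + b * Real.cos t ∈ Icc (a - b) (a + b) := by
    intro t
    have h1 := Real.neg_one_le_cos t
    have h2 := Real.cos_le_one t
    constructor <;> nlinarith
  have hcont : ContinuousOn (fun s => v s * Real.sqrt ((a + b - s) * (s - (a - b))))
      (Icc (a - b) (a + b)) := by
    apply hv.mul
    fun_prop
  have h2 := intervalIntegral.integral_comp_mul_deriv'' (a := (0 : ℝ)) (b := Real.pi)
    (f := fun t => a + b * Real.cos t) (f' := fun t => b * (-Real.sin t))
    (g := fun s => v s * Real.sqrt ((a + b - s) * (s - (a - b))))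
    (by fun_prop)
    (by
      intro t _
      exact (((Real.hasDerivAt_cos t).const_mul b).const_add a).hasDerivWithinAt)
    (by fun_prop)
    (by
      apply hcont.mono
      rintro s ⟨t, _, rfl⟩
      exact hmem t)
  simp only [Real.cos_zero, Real.cos_pi, mul_one, mul_neg] at h2
  rw [intervalIntegral.integral_symm (a + b) (a - b)]
  rw [show a + -b = a - b by ring] at h2
  rw [← h2, ← intervalIntegral.integral_neg, ← intervalIntegral.integral_const_mul]
  apply intervalIntegral.integral_congr
  intro t ht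
  rw [uIcc_of_le Real.pi_pos.le] at ht
  have hs : 0 ≤ Real.sin t := Real.sin_nonneg_of_nonneg_of_le_pi ht.1 ht.2
  have hsq : Real.sqrt ((a + b - (a + b * Real.cos t)) * (a + b * Real.cos t - (a - b))) =
      b * Real.sin t := by
    have h3 : (a + b - (a + b * Real.cos t)) * (a + b * Real.cos t - (a - b)) =
        (b * Real.sin t) ^ 2 := by
      have := Real.sin_sq t
      rw [mul_pow, this]
      ring
    rw [h3, Real.sqrt_sq (by positivity)]
  simp only [Function.comp]
  rw [hsq]
  ring

/-- the first moment -/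
theorem cir_moment {F v : ℝ → ℝ} {a b : ℝ} (hb : 0 < b)
    (hF : ∀ s ∈ Icc (a - b) (a + b), HasDerivAt F (v s) s)
    (hv : ContinuousOn v (Icc (a - b) (a + b))) :
    ∫ t in (0 : ℝ)..(2 * Real.pi), F (a + b * Real.cos t) * Real.cos t =
      (2 / b) * ∫ s in (a - b)..(a + b), v s * Real.sqrt ((a + b - s) * (s - (a - b))) := by
  have hmem : ∀ t : ℝ, a + b * Real.cos t ∈ Icc (a - b) (a + b) := by
    intro t
    have h1 := Real.neg_one_le_cos t
    have h2 := Real.cos_le_one t
    constructor <;> nlinarith
  have hvc : Continuous fun t : ℝ => v (a + b * Real.cos t) :=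
    hv.comp_continuous (by fun_prop) hmem
  have hpi := Real.pi_pos
  -- by parts
  have h1 : ∫ t in (0 : ℝ)..(2 * Real.pi), F (a + b * Real.cos t) * Real.cos t =
      b * ∫ t in (0 : ℝ)..(2 * Real.pi), Real.sin t ^ 2 * v (a + b * Real.cos t) := by
    have h2 := intervalIntegral.integral_mul_deriv_eq_deriv_mul (a := (0 : ℝ))
      (b := 2 * Real.pi) (u := fun t => F (a + b * Real.cos t)) (v := Real.sin)
      (u' := fun t => v (a + b * Real.cos t) * (b * (-Real.sin t))) (v' := Real.cos)
      (by
        intro t _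
        have h3 : HasDerivAt (fun t => a + b * Real.cos t) (b * (-Real.sin t)) t :=
          ((Real.hasDerivAt_cos t).const_mul b).const_add a
        exact (hF _ (hmem t)).comp t h3)
      (fun t _ => Real.hasDerivAt_sin t)
      ((hvc.mul (by fun_prop)).intervalIntegrable _ _)
      (Real.continuous_cos.intervalIntegrable _ _)
    rw [h2]
    simp only [Real.sin_two_pi, Real.sin_zero, mul_zero, sub_zero, zero_sub]
    rw [← intervalIntegral.integral_neg, ← intervalIntegral.integral_const_mul]
    apply intervalIntegral.integral_congr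
    intro t _
    simp only
    ring
  have hg : Continuous fun t : ℝ => Real.sin t ^ 2 * v (a + b * Real.cos t) :=
    (Real.continuous_sin.pow 2).mul hvc
  have h4 : ∫ t in (Real.pi)..(2 * Real.pi), Real.sin t ^ 2 * v (a + b * Real.cos t) =
      ∫ t in (0 : ℝ)..Real.pi, Real.sin t ^ 2 * v (a + b * Real.cos t) := by
    have h5 := intervalIntegral.integral_comp_sub_left (a := 0) (b := Real.pi)
      (fun t => Real.sin t ^ 2 * v (a + b * Real.cos t)) (2 * Real.pi)
    rw [show 2 * Real.pi - Real.pi = Real.pi by ring, sub_zero] at h5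
    rw [← h5]
    apply intervalIntegral.integral_congr
    intro t _
    simp only
    rw [Real.sin_two_pi_sub, Real.cos_two_pi_sub]
    ring
  rw [h1, cir_subst hb hv, ← intervalIntegral.integral_add_adjacent_intervals
    (hg.intervalIntegrable 0 Real.pi) (hg.intervalIntegrable Real.pi (2 * Real.pi)), h4]
  field_simp
  ring

/-- the moment with `sin` vanishes -/
theorem cir_sin {F : ℝ → ℝ} {a b : ℝ} :
    ∫ t in (0 : ℝ)..(2 * Real.pi), F (a + b * Real.cos t) * Real.sin t = 0 := by
  have h5 := intervalIntegral.integral_comp_sub_left (a := 0) (b := 2 * Real.pi)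
      (fun t => F (a + b * Real.cos t) * Real.sin t) (2 * Real.pi)
  rw [sub_self, sub_zero] at h5
  have h6 : ∫ t in (0 : ℝ)..(2 * Real.pi), F (a + b * Real.cos (2 * Real.pi - t)) *
      Real.sin (2 * Real.pi - t) =
      -∫ t in (0 : ℝ)..(2 * Real.pi), F (a + b * Real.cos t) * Real.sin t := by
    rw [← intervalIntegral.integral_neg]
    apply intervalIntegral.integral_congr
    intro t _
    simp only
    rw [Real.sin_two_pi_sub, Real.cos_two_pi_sub]
    ring
  rw [h6] at h5
  linarith

/-- the modulus on the circle -/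
theorem cir_norm {z : ℂ} (r θ : ℝ) :
    ‖circleMap z r θ‖ ^ 2 = (‖z‖ ^ 2 + r ^ 2) + (2 * ‖z‖ * r) * Real.cos (θ - z.arg) := by
  have hre : z.re = ‖z‖ * Real.cos z.arg := (Complex.norm_mul_cos_arg z).symm
  have him : z.im = ‖z‖ * Real.sin z.arg := (Complex.norm_mul_sin_arg z).symm
  rw [← Complex.normSq_eq_norm_sq, Complex.normSq_apply]
  have h1 : (circleMap z r θ).re = z.re + r * Real.cos θ := by
    rw [circleMap]
    simp [Complex.exp_ofReal_mul_I_re]
  have h2 : (circleMap z r θ).im = z.im + r * Real.sin θ := by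
    rw [circleMap]
    simp [Complex.exp_ofReal_mul_I_im]
  rw [h1, h2, hre, him, Real.cos_sub]
  have h3 := Real.sin_sq_add_cos_sq z.arg
  have h4 := Real.sin_sq_add_cos_sq θ
  have e1 : Real.sin z.arg ^ 2 = 1 - Real.cos z.arg ^ 2 := by linarith
  have e2 : Real.sin θ ^ 2 = 1 - Real.cos θ ^ 2 := by linarith
  ring_nf
  rw [e1, e2]
  ring

/-- the circle integral -/
theorem circle : CircleStmt := by
  intro F v z r hF hv hz hr hzr
  set a : ℝ := ‖z‖ ^ 2 + r ^ 2 with ha
  set b : ℝ := 2 * ‖z‖ * r with hb
  have hb0 : 0 < b := by rw [hb]; positivity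
  have eab : (‖z‖ + r) ^ 2 = a + b := by rw [ha, hb]; ring
  have eamb : (‖z‖ - r) ^ 2 = a - b := by rw [ha, hb]; ring
  have hlt : a + b < 1 := by
    rw [← eab]
    nlinarith
  have hmom := cir_moment (F := F) (v := v) hb0 (fun s hs => hF s (lt_of_le_of_lt hs.2 hlt))
    (hv.mono fun s hs => lt_of_le_of_lt hs.2 hlt)
  rw [eab, eamb]
  set G : ℝ := ∫ s in (a - b)..(a + b), v s * Real.sqrt ((a + b - s) * (s - (a - b))) with hG
  rw [circleIntegral]
  -- the integrand as a function of `θ - arg z`
  set f : ℝ → ℂ := fun t => ((F (a + b * Real.cos t) : ℝ) : ℂ) *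
    ((Real.cos t : ℂ) + (Real.sin t : ℂ) * Complex.I) with hf
  have h1 : (fun θ : ℝ => deriv (circleMap z r) θ •
      ((F (‖circleMap z r θ‖ ^ 2) : ℝ) : ℂ)) =
      fun θ : ℝ => (r * Complex.I * Complex.exp ((z.arg : ℂ) * Complex.I)) * f (θ - z.arg) := by
    funext θ
    rw [cir_norm r θ]
    simp only [hf]
    rw [deriv_circleMap, circleMap, zero_add, smul_eq_mul]
    have e1 : Complex.exp ((θ : ℂ) * Complex.I) = Complex.exp ((z.arg : ℂ) * Complex.I) *
        (((Real.cos (θ - z.arg) : ℝ) : ℂ) + ((Real.sin (θ - z.arg) : ℝ) : ℂ) * Complex.I) := by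
      have e2 : ((Real.cos (θ - z.arg) : ℝ) : ℂ) + ((Real.sin (θ - z.arg) : ℝ) : ℂ) * Complex.I =
          Complex.exp (((θ - z.arg : ℝ) : ℂ) * Complex.I) := by
        rw [Complex.exp_mul_I]
        push_cast
        ring
      rw [e2, ← Complex.exp_add]
      congr 1
      push_cast
      ring
    rw [e1]
    ring
  rw [h1, intervalIntegral.integral_const_mul]
  have hper : Function.Periodic f (2 * Real.pi) := by
    intro t
    simp only [hf]
    rw [Real.cos_add_two_pi, Real.sin_add_two_pi]
  have h2 : ∫ θ in (0 : ℝ)..(2 * Real.pi), f (θ - z.arg) = ∫ t in (0 : ℝ)..(2 * Real.pi), f t := by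
    rw [intervalIntegral.integral_comp_sub_right]
    have := hper.intervalIntegral_add_eq (0 - z.arg) 0
    rw [zero_add] at this
    rw [← this]
    congr 1
    ring
  have hFc : Continuous fun t : ℝ => F (a + b * Real.cos t) := by
    rw [continuous_iff_continuousAt]
    intro t
    have hm : a + b * Real.cos t < 1 := by
      have := Real.cos_le_one t
      nlinarith
    exact ContinuousAt.comp (f := fun t : ℝ => a + b * Real.cos t) (g := F)
      (hF _ hm).continuousAt (by fun_prop)
  have h3 : ∫ t in (0 : ℝ)..(2 * Real.pi), f t = (((2 / b) * G : ℝ) : ℂ) := by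
    have h4 : f = fun t => ((F (a + b * Real.cos t) * Real.cos t : ℝ) : ℂ) +
        ((F (a + b * Real.cos t) * Real.sin t : ℝ) : ℂ) * Complex.I := by
      funext t
      simp only [hf]
      push_cast
      ring
    rw [h4, intervalIntegral.integral_add, intervalIntegral.integral_mul_const,
      intervalIntegral.integral_ofReal, intervalIntegral.integral_ofReal, cir_sin, hmom]
    · simp
    · exact (Complex.continuous_ofReal.comp (hFc.mul Real.continuous_cos)).intervalIntegrable _ _
    · exact ((Complex.continuous_ofReal.comp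
        (hFc.mul Real.continuous_sin)).mul continuous_const).intervalIntegrable _ _
  rw [h2, h3]
  have hz1 : (‖z‖ : ℂ) * Complex.exp ((z.arg : ℂ) * Complex.I) = z :=
    Complex.norm_mul_exp_arg_mul_I z
  have hzc : (‖z‖ : ℂ) ≠ 0 := by exact_mod_cast hz.ne'
  have hrc : (r : ℂ) ≠ 0 := by exact_mod_cast hr.ne'
  have e3 : Complex.exp ((z.arg : ℂ) * Complex.I) = z / (‖z‖ : ℂ) := by
    rw [eq_div_iff hzc, mul_comm]
    exact hz1
  rw [e3, hb]
  push_cast
  field_simp

end Pool.Agent.Lib.MP_9de1de_an.Q2
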