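import Mathlib
import Pool.Agent.Lib.MP_9de1de_an.Q2.Defs

/-!
# From the profile to the function on the disc
-/

set_option autoImplicit false

namespace Pool.Agent.Lib.MP_9de1de_an.Q2

open MeasureTheory Set Filter Topology
open scoped ContDiff

/-- a complex differentiable radial real function has derivative zero -/
theorem fin_deriv_zero {F : ℝ → ℝ} {ρ D : ℝ} (hρ : 0 < ρ) (hF : HasDerivAt F D (ρ ^ 2))
    (hd : DifferentiableAt ℂ (fun z : ℂ => ((F (‖z‖ ^ 2) : ℝ) : ℂ)) (ρ : ℂ)) : D = 0 := by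
  set f : ℂ → ℂ := fun z => ((F (‖z‖ ^ 2) : ℝ) : ℂ) with hf
  have hL := hd.hasDerivAt
  set L := deriv f (ρ : ℂ) with hLdef
  -- the real direction
  have h1 : HasDerivAt (fun y : ℝ => f (y : ℂ)) L ρ := hL.comp_ofReal
  have h2 : HasDerivAt (fun y : ℝ => ((F (y ^ 2) : ℝ) : ℂ)) ((D * (2 * ρ) : ℝ) : ℂ) ρ := by
    have h3 : HasDerivAt (fun y : ℝ => F (y ^ 2)) (D * (2 * ρ)) ρ := by
      have h4 : HasDerivAt (fun y : ℝ => y ^ 2) (2 * ρ) ρ := by
        simpa using hasDerivAt_pow 2 ρ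
      exact HasDerivAt.comp (h := fun y : ℝ => y ^ 2) ρ hF h4
    exact h3.ofReal_comp
  have e1 : (fun y : ℝ => f (y : ℂ)) = fun y : ℝ => ((F (y ^ 2) : ℝ) : ℂ) := by
    funext y
    simp only [hf, Complex.norm_real, Real.norm_eq_abs, sq_abs]
  rw [e1] at h1
  have h5 := h1.unique h2
  -- the imaginary direction
  have h6 : HasDerivAt (fun w : ℂ => f ((ρ : ℂ) + w * Complex.I)) (L * Complex.I)
      ((0 : ℝ) : ℂ) := by
    have h7 : HasDerivAt (fun w : ℂ => (ρ : ℂ) + w * Complex.I) Complex.I ((0 : ℝ) : ℂ) := by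
      have := ((hasDerivAt_id ((0 : ℝ) : ℂ)).mul_const Complex.I).const_add (ρ : ℂ)
      simpa using this
    have h8 : HasDerivAt f L ((ρ : ℂ) + ((0 : ℝ) : ℂ) * Complex.I) := by
      simpa using hL
    exact HasDerivAt.comp (h := fun w : ℂ => (ρ : ℂ) + w * Complex.I) _ h8 h7
  have h9 := h6.comp_ofReal
  have e2 : (fun t : ℝ => f ((ρ : ℂ) + (t : ℂ) * Complex.I)) =
      fun t : ℝ => ((F (ρ ^ 2 + t ^ 2) : ℝ) : ℂ) := by
    funext t
    simp only [hf]
    have : ‖(ρ : ℂ) + (t : ℂ) * Complex.I‖ ^ 2 = ρ ^ 2 + t ^ 2 := by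
      rw [← Complex.normSq_eq_norm_sq, Complex.normSq_add_mul_I]
    rw [this]
  rw [e2] at h9
  have h10 : HasDerivAt (fun t : ℝ => ((F (ρ ^ 2 + t ^ 2) : ℝ) : ℂ)) ((D * 0 : ℝ) : ℂ) 0 := by
    have h3 : HasDerivAt (fun t : ℝ => F (ρ ^ 2 + t ^ 2)) (D * 0) 0 := by
      have h4 : HasDerivAt (fun t : ℝ => ρ ^ 2 + t ^ 2) 0 0 := by
        simpa using (hasDerivAt_pow 2 (0 : ℝ)).const_add (ρ ^ 2)
      have h5 : HasDerivAt F D (ρ ^ 2 + 0 ^ 2) := by simpa using hF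
      exact HasDerivAt.comp (h := fun t : ℝ => ρ ^ 2 + t ^ 2) 0 h5 h4
    exact h3.ofReal_comp
  have h11 := h9.unique h10
  rw [mul_zero, Complex.ofReal_zero] at h11
  have h12 : L = 0 := by
    rcases mul_eq_zero.mp h11 with h | h
    · exact h
    · exact absurd h Complex.I_ne_zero
  rw [h12] at h5
  have h13 : D * (2 * ρ) = 0 := by exact_mod_cast h5.symm
  rcases mul_eq_zero.mp h13 with h | h
  · exact h
  · linarith

theorem final (hM : MainStmt) {α : ℝ} (h0 : 0 < α) (h1 : α < 1) {g : ℝ → ℝ}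
    (hg : ContDiff ℝ ∞ g) (hs : ∃ p q : ℝ, 0 < p ∧ q < α ∧ ∀ t, t ≤ p ∨ q ≤ t → g t = 0) :
    ∃ f : ℂ → ℂ, ContDiffOn ℝ ∞ f (Metric.ball (0 : ℂ) 1) ∧
      (∀ z : ℂ, ‖z‖ < 1 → circleIntegral f z (α * (1 - ‖z‖)) = 0) ∧
      (∀ z : ℂ, ‖z‖ ≤ α → f z = ((g ‖z‖ : ℝ) : ℂ)) ∧
      ((∃ t, g t ≠ 0) → ¬ AnalyticOn ℂ f (Metric.ball (0 : ℂ) 1)) := by
  obtain ⟨F, hF, hFg, hFc⟩ := hM α h0 h1 g hg hs
  refine ⟨fun z => ((F (‖z‖ ^ 2) : ℝ) : ℂ), ?_, hFc, ?_, ?_⟩
  · have h2 : ContDiffOn ℝ ∞ (fun z : ℂ => F (‖z‖ ^ 2)) (Metric.ball (0 : ℂ) 1) := by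
      have h3 : ContDiff ℝ ∞ (fun z : ℂ => ‖z‖ ^ 2) := contDiff_norm_sq ℝ
      apply hF.comp h3.contDiffOn
      intro z hz
      rw [mem_ball_zero_iff] at hz
      rw [mem_Iio]
      have := norm_nonneg z
      nlinarith
    exact Complex.ofRealCLM.contDiff.comp_contDiffOn h2
  · intro z hz
    simp only
    rw [hFg z hz]
  · rintro ⟨t, ht⟩ han
    obtain ⟨p, q, hp, hq, hpq⟩ := hs
    have htp : p < t := by
      by_contra hc
      exact ht (hpq t (Or.inl (not_lt.mp hc)))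
    have htq : t < q := by
      by_contra hc
      exact ht (hpq t (Or.inr (not_lt.mp hc)))
    have hdF : ∀ s < 1, HasDerivAt F (deriv F s) s := by
      intro s hs
      exact ((hF.contDiffAt (Iio_mem_nhds hs)).differentiableAt (by simp)).hasDerivAt
    have hzero : ∀ s ∈ Ioo (0 : ℝ) 1, deriv F s = 0 := by
      intro s hs
      have hρ : 0 < Real.sqrt s := Real.sqrt_pos.mpr hs.1
      have hρ2 : Real.sqrt s ^ 2 = s := Real.sq_sqrt hs.1.le
      apply fin_deriv_zero hρ (F := F)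
      · rw [hρ2]
        exact hdF s hs.2
      · have hmem : ((Real.sqrt s : ℝ) : ℂ) ∈ Metric.ball (0 : ℂ) 1 := by
          rw [mem_ball_zero_iff, Complex.norm_real, Real.norm_of_nonneg hρ.le]
          rw [Real.sqrt_lt' one_pos]
          simpa using hs.2
        exact han.differentiableOn.differentiableAt (Metric.isOpen_ball.mem_nhds hmem)
    -- `F` is constant between `t ^ 2` and `α ^ 2`
    have hta : t ^ 2 ≤ α ^ 2 := by nlinarith
    have hα2 : α ^ 2 < 1 := by nlinarith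
    have hconst : F (α ^ 2) = F (t ^ 2) := by
      apply constant_of_has_deriv_right_zero (f := F) (a := t ^ 2) (b := α ^ 2)
      · intro s hs
        exact (hdF s (lt_of_le_of_lt hs.2 hα2)).continuousAt.continuousWithinAt
      · intro s hs
        have hs1 : s ∈ Ioo (0 : ℝ) 1 := ⟨by nlinarith [hs.1], lt_trans hs.2 hα2⟩
        have := (hdF s hs1.2).hasDerivWithinAt (s := Ici s)
        rwa [hzero s hs1] at this
      · exact ⟨hta, le_rfl⟩
    have e1 := hFg ((t : ℝ) : ℂ) (by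
      rw [Complex.norm_real, Real.norm_of_nonneg (by linarith)]
      linarith)
    have e2 := hFg ((α : ℝ) : ℂ) (by
      rw [Complex.norm_real, Real.norm_of_nonneg h0.le])
    rw [Complex.norm_real, Real.norm_of_nonneg (by linarith)] at e1
    rw [Complex.norm_real, Real.norm_of_nonneg h0.le] at e2
    rw [hpq α (Or.inr hq.le)] at e2
    apply ht
    rw [← e1, ← hconst, e2]

end Pool.Agent.Lib.MP_9de1de_an.Q2
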