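import Pool.Agent.Lib.MP_9de1de_an.Q2.Defs

/-!
# The extension up to `1`
-/

set_option autoImplicit false

namespace Pool.Agent.Lib.MP_9de1de_an.Q2

open MeasureTheory Set Filter Topology
open scoped ContDiff

/-- the lengths of the overlaps -/
noncomputable def limEta (E : ℕ → ℝ) (η : ℝ) : ℕ → ℝ
  | 0 => η
  | n + 1 => min η ((E (n + 1) - E n) / 2)

theorem limEta_pos {E : ℕ → ℝ} {η : ℝ} (hη : 0 < η) (hE : StrictMono E) (n : ℕ) :
    0 < limEta E η n := by
  cases n with
  | zero => exact hη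
  | succ n =>
    have := hE (Nat.lt_succ_self n)
    have h2 : 0 < (E (n + 1) - E n) / 2 := by
      have h3 : E n < E (n + 1) := this
      linarith
    exact lt_min hη h2

theorem limit_lt_succ {E : ℕ → ℝ} {η : ℝ} (hE : StrictMono E) (n : ℕ) :
    E n < E (n + 1) - limEta E η (n + 1) := by
  have h1 : E n < E (n + 1) := hE (Nat.lt_succ_self n)
  have h2 : limEta E η (n + 1) ≤ (E (n + 1) - E n) / 2 := min_le_right _ _
  linarith

theorem limit (hS : StepStmt) : LimitStmt := by
  intro β v A₀ E η hβ hv hA hη hE hE1 hlim hβE hβA h0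
  -- one step
  have step : ∀ n : ℕ, ∀ u : ℝ → ℝ,
      (ContDiff ℝ ∞ u ∧ ∀ A ∈ Ioc A₀ (E n), GG β u A = 0) →
      ∃ u' : ℝ → ℝ, (ContDiff ℝ ∞ u' ∧ ∀ A ∈ Ioc A₀ (E (n + 1)), GG β u' A = 0) ∧
        ∀ s ≤ E n - limEta E η n, u' s = u s := by
    intro n u hu
    have hAn : A₀ < E n := lt_of_lt_of_le hA (hE.monotone (Nat.zero_le n))
    obtain ⟨u', h1, h2, h3⟩ := hS β u A₀ (E n) (E (n + 1)) (limEta E η n) hβ hu.1 hAn
      (hE (Nat.lt_succ_self n)) (limEta_pos hη hE n) (hβE n)
      (fun A hA' => hβA A hA'.1 (lt_of_le_of_lt hA'.2 (hE1 n))) hu.2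
    exact ⟨u', ⟨h1, h3⟩, h2⟩
  choose! f hf1 hf2 using step
  -- the sequence
  let V : ℕ → ℝ → ℝ := fun n => Nat.rec v (fun n u => f n u) n
  have hV0 : V 0 = v := rfl
  have hVs : ∀ n, V (n + 1) = f n (V n) := fun n => rfl
  have hP : ∀ n, ContDiff ℝ ∞ (V n) ∧ ∀ A ∈ Ioc A₀ (E n), GG β (V n) A = 0 := by
    intro n
    induction n with
    | zero => exact ⟨hv, h0⟩
    | succ n ih => rw [hVs]; exact hf1 n (V n) ih
  let e : ℕ → ℝ := fun n => E n - limEta E η n
  have he_lt : ∀ n, e n < E n := fun n => by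
    have := limEta_pos hη hE n
    show E n - limEta E η n < E n
    linarith
  have he_succ : ∀ n, E n < e (n + 1) := fun n => limit_lt_succ hE n
  have he_mono : Monotone e := monotone_nat_of_le_succ fun n =>
    le_of_lt (lt_trans (he_lt n) (he_succ n))
  have hstab : ∀ n m, n ≤ m → ∀ s ≤ e n, V m s = V n s := by
    intro n m hnm
    induction m, hnm using Nat.le_induction with
    | base => intro s _; rfl
    | succ m hnm ih =>
      intro s hs
      rw [hVs, hf2 m (V m) (hP m) s (le_trans hs (he_mono hnm)), ih s hs]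
  have hex : ∀ s : ℝ, s < 1 → ∃ n, s < e n := by
    intro s hs
    obtain ⟨n, hn⟩ := (hlim.eventually (lt_mem_nhds hs)).exists
    exact ⟨n + 1, lt_trans hn (he_succ n)⟩
  classical
  let v' : ℝ → ℝ := fun s => if h : s < 1 then V (Nat.find (hex s h)) s else 0
  have hv' : ∀ n, ∀ s ≤ e n, v' s = V n s := by
    intro n s hs
    have h1 : s < 1 := lt_of_le_of_lt hs (lt_trans (he_lt n) (hE1 n))
    have h2 : v' s = V (Nat.find (hex s h1)) s := dif_pos h1
    rw [h2]
    have h3 : s < e (Nat.find (hex s h1)) := Nat.find_spec (hex s h1)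
    rcases le_total n (Nat.find (hex s h1)) with h | h
    · exact hstab _ _ h s hs
    · exact (hstab _ _ h s h3.le).symm
  refine ⟨v', ?_, ?_, ?_⟩
  · intro s hs
    obtain ⟨n, hn⟩ := hex s hs
    have h1 : v' =ᶠ[𝓝 s] V n := by
      filter_upwards [Iio_mem_nhds hn] with x hx
      exact hv' n x (le_of_lt hx)
    exact ((hP n).1.contDiffAt.congr_of_eventuallyEq h1).contDiffWithinAt
  · intro s hs
    exact hv' 0 s hs
  · intro A hA1 hA2
    obtain ⟨n, hn⟩ := hex A hA2
    have h1 : GG β v' A = GG β (V n) A := by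
      unfold GG
      apply intervalIntegral.integral_congr
      intro s hs
      rw [uIcc_of_le (hβA A hA1 hA2).le] at hs
      have : v' s = V n s := hv' n s (le_trans hs.2 hn.le)
      simp only [this]
    rw [h1]
    exact (hP n).2 A ⟨hA1, le_trans hn.le (he_lt n).le⟩

end Pool.Agent.Lib.MP_9de1de_an.Q2
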