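import Mathlib
import Pool.Agent.Lib.MP_9de1de_an.Q2.Defs

/-!
# One step of the extension
-/

set_option autoImplicit false

namespace Pool.Agent.Lib.MP_9de1de_an.Q2

open MeasureTheory Set Filter Topology
open scoped ContDiff

/-- a smooth positive function equal to the square root on `[m, ∞)` -/
theorem stp_sqrt {m : ℝ} (hm : 0 < m) : ∃ S : ℝ → ℝ, ContDiff ℝ ∞ S ∧ (∀ x, 0 < S x) ∧
    ∀ x, m ≤ x → S x = Real.sqrt x := by
  set lam : ℝ → ℝ := fun x => Real.smoothTransition ((x - m / 2) * (2 / m)) with hlam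
  have hlam0 : ∀ x, x ≤ m / 2 → lam x = 0 := by
    intro x hx
    apply Real.smoothTransition.zero_of_nonpos
    have : 0 < 2 / m := by positivity
    nlinarith
  have hlam1 : ∀ x, m ≤ x → lam x = 1 := by
    intro x hx
    apply Real.smoothTransition.one_of_one_le
    rw [← div_le_iff₀ (by positivity)]
    have : 1 / (2 / m) = m / 2 := by field_simp
    rw [this]
    linarith
  have hl0 : ∀ x, 0 ≤ lam x := fun x => Real.smoothTransition.nonneg _
  have hl1 : ∀ x, lam x ≤ 1 := fun x => Real.smoothTransition.le_one _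
  have hsm : ContDiff ℝ ∞ lam := by
    apply Real.smoothTransition.contDiff.comp
    fun_prop
  set rho : ℝ → ℝ := fun x => x * lam x + m * (1 - lam x) with hrho
  have hpos : ∀ x, 0 < rho x := by
    intro x
    simp only [hrho]
    rcases le_or_gt x (m / 2) with hx | hx
    · rw [hlam0 x hx]
      linarith
    · have h1 : 0 < x := by linarith
      rcases eq_or_lt_of_le (hl0 x) with h2 | h2
      · rw [← h2]
        linarith
      · have h3 : 0 < x * lam x := mul_pos h1 h2
        have h4 : 0 ≤ m * (1 - lam x) := mul_nonneg hm.le (by linarith [hl1 x])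
        linarith
  refine ⟨fun x => Real.sqrt (rho x), ?_, fun x => Real.sqrt_pos.mpr (hpos x), ?_⟩
  · apply ContDiff.sqrt
    · exact (contDiff_id.mul hsm).add (contDiff_const.mul (contDiff_const.sub hsm))
    · intro x
      exact (hpos x).ne'
  · intro x hx
    have : rho x = x := by
      simp only [hrho]
      rw [hlam1 x hx]
      ring
    simp only [this]

/-- upper part: substitution `s = A - u ^ 2` -/
theorem stp_up {S φ : ℝ → ℝ} {m A B t₀ : ℝ} (hm : 0 < m) (hS : Continuous S)
    (hSm : ∀ x, m ≤ x → S x = Real.sqrt x) (hφ : Continuous φ) (h0 : ∀ s ≤ t₀, φ s = 0)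
    (hB : B + m ≤ t₀) (hBA : B ≤ A) :
    ∫ s in B..A, φ s * Real.sqrt ((A - s) * (s - B)) =
      ∫ u : ℝ, u ^ 2 * φ (A - u ^ 2) * S (A - u ^ 2 - B) := by
  set R := Real.sqrt (A - B) with hR
  have hR0 : 0 ≤ R := Real.sqrt_nonneg _
  have hR2 : R ^ 2 = A - B := Real.sq_sqrt (by linarith)
  have h1 : ∫ s in B..A, φ s * Real.sqrt ((A - s) * (s - B)) =
      ∫ s in B..A, φ s * (Real.sqrt (A - s) * S (s - B)) := by
    apply intervalIntegral.integral_congr
    intro s hs
    rw [uIcc_of_le hBA] at hs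
    simp only
    rcases le_or_gt s t₀ with hst | hst
    · rw [h0 s hst, zero_mul, zero_mul]
    · rw [hSm (s - B) (by linarith), Real.sqrt_mul (by linarith [hs.2])]
  have h2 : ∫ u in (0 : ℝ)..R, ((fun s => φ s * (Real.sqrt (A - s) * S (s - B))) ∘
      fun u => A - u ^ 2) u * (-(2 * u)) =
      ∫ s in (A - 0 ^ 2)..(A - R ^ 2), φ s * (Real.sqrt (A - s) * S (s - B)) := by
    apply intervalIntegral.integral_comp_mul_deriv
    · intro u _
      have := ((hasDerivAt_pow 2 u).const_sub A)
      refine this.congr_deriv ?_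
      norm_num
    · fun_prop
    · fun_prop
  have e1 : A - R ^ 2 = B := by rw [hR2]; ring
  have e2 : A - (0 : ℝ) ^ 2 = A := by ring
  rw [e1, e2] at h2
  have h3 : ∫ s in B..A, φ s * (Real.sqrt (A - s) * S (s - B)) =
      2 * ∫ u in (0 : ℝ)..R, u ^ 2 * φ (A - u ^ 2) * S (A - u ^ 2 - B) := by
    rw [intervalIntegral.integral_symm, ← h2, ← intervalIntegral.integral_neg,
      ← intervalIntegral.integral_const_mul]
    apply intervalIntegral.integral_congr
    intro u hu
    rw [uIcc_of_le hR0] at hu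
    simp only [Function.comp]
    have : Real.sqrt (A - (A - u ^ 2)) = u := by
      rw [show A - (A - u ^ 2) = u ^ 2 by ring]
      exact Real.sqrt_sq hu.1
    rw [this]
    ring
  set H : ℝ → ℝ := fun u => u ^ 2 * φ (A - u ^ 2) * S (A - u ^ 2 - B) with hH
  have hHc : Continuous H := by
    simp only [hH]
    fun_prop
  have h4 : ∫ u in (-R)..(0 : ℝ), H u = ∫ u in (0 : ℝ)..R, H u := by
    have h5 := intervalIntegral.integral_comp_neg (a := -R) (b := 0) H
    rw [neg_neg, neg_zero] at h5
    rw [← h5]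
    apply intervalIntegral.integral_congr
    intro u _
    simp only [hH]
    ring_nf
  have h6 : ∫ u in (-R)..R, H u = ∫ u, H u := by
    apply intervalIntegral.integral_eq_integral_of_support_subset
    intro u hu
    have h7 : φ (A - u ^ 2) ≠ 0 := by
      intro h
      apply hu
      simp only [hH, h]
      ring
    have h8 : t₀ < A - u ^ 2 := by
      by_contra hc
      exact h7 (h0 _ (not_lt.mp hc))
    have h9 : u ^ 2 < R ^ 2 := by
      rw [hR2]
      linarith
    have h10 := abs_lt_of_sq_lt_sq h9 hR0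
    rw [abs_lt] at h10
    exact ⟨h10.1, h10.2.le⟩
  rw [h1, h3, ← h6, ← intervalIntegral.integral_add_adjacent_intervals
    (hHc.intervalIntegrable (-R) 0) (hHc.intervalIntegrable 0 R), h4]
  ring

/-- lower part: substitution `s = B + u ^ 2` -/
theorem stp_low {S φ : ℝ → ℝ} {m A B t₁ : ℝ} (hm : 0 < m) (hS : Continuous S)
    (hSm : ∀ x, m ≤ x → S x = Real.sqrt x) (hφ : Continuous φ) (h0 : ∀ s, t₁ ≤ s → φ s = 0)
    (hA : t₁ + m ≤ A) (hBA : B ≤ A) :
    ∫ s in B..A, φ s * Real.sqrt ((A - s) * (s - B)) =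
      ∫ u : ℝ, u ^ 2 * φ (B + u ^ 2) * S (A - B - u ^ 2) := by
  have h1 := stp_up (S := S) (φ := fun s => φ (A + B - s)) (m := m) (A := A) (B := B)
    (t₀ := A + B - t₁) hm hS hSm (hφ.comp (by fun_prop)) (fun s hs => h0 _ (by linarith))
    (by linarith) hBA
  have h2 : ∫ s in B..A, φ (A + B - s) * Real.sqrt ((A - s) * (s - B)) =
      ∫ s in B..A, φ s * Real.sqrt ((A - s) * (s - B)) := by
    have h3 := intervalIntegral.integral_comp_sub_left (a := B) (b := A)
      (fun s => φ s * Real.sqrt ((A - s) * (s - B))) (A + B)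
    rw [show A + B - A = B by ring, show A + B - B = A by ring] at h3
    rw [← h3]
    apply intervalIntegral.integral_congr
    intro s _
    simp only
    congr 2
    ring
  rw [← h2, h1]
  congr 1
  funext u
  rw [show A + B - (A - u ^ 2) = B + u ^ 2 by ring, show A - u ^ 2 - B = A - B - u ^ 2 by ring]

/-- from the line to an interval, upper part -/
theorem stp_up_int {S φ : ℝ → ℝ} {A B t₀ U : ℝ} (h0 : ∀ s ≤ t₀, φ s = 0) (hU : 0 ≤ U)
    (hUA : A - t₀ ≤ U ^ 2) :
    ∫ u : ℝ, u ^ 2 * φ (A - u ^ 2) * S (A - u ^ 2 - B) =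
      ∫ u in (-U)..U, u ^ 2 * φ (A - u ^ 2) * S (A - u ^ 2 - B) := by
  symm
  apply intervalIntegral.integral_eq_integral_of_support_subset
  intro u hu
  have h7 : φ (A - u ^ 2) ≠ 0 := by
    intro h
    apply hu
    simp only [h]
    ring
  have h8 : t₀ < A - u ^ 2 := by
    by_contra hc
    exact h7 (h0 _ (not_lt.mp hc))
  have h9 : u ^ 2 < U ^ 2 := by linarith
  have h10 := abs_lt_of_sq_lt_sq h9 hU
  rw [abs_lt] at h10
  exact ⟨h10.1, h10.2.le⟩

/-- from the line to an interval, lower part -/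
theorem stp_low_int {S φ : ℝ → ℝ} {A B t₁ U : ℝ} (h0 : ∀ s, t₁ ≤ s → φ s = 0) (hU : 0 ≤ U)
    (hUA : t₁ - B ≤ U ^ 2) :
    ∫ u : ℝ, u ^ 2 * φ (B + u ^ 2) * S (A - B - u ^ 2) =
      ∫ u in (-U)..U, u ^ 2 * φ (B + u ^ 2) * S (A - B - u ^ 2) := by
  symm
  apply intervalIntegral.integral_eq_integral_of_support_subset
  intro u hu
  have h7 : φ (B + u ^ 2) ≠ 0 := by
    intro h
    apply hu
    simp only [h]
    ring
  have h8 : B + u ^ 2 < t₁ := by
    by_contra hc
    exact h7 (h0 _ (not_lt.mp hc))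
  have h9 : u ^ 2 < U ^ 2 := by linarith
  have h10 := abs_lt_of_sq_lt_sq h9 hU
  rw [abs_lt] at h10
  exact ⟨h10.1, h10.2.le⟩

/-- margins -/
theorem stp_margin {β : ℝ → ℝ} {A₀ E E' η : ℝ} (hβ : Continuous β) (h1 : A₀ < E) (h2 : E < E')
    (hη : 0 < η) (hE : ∀ A ∈ Icc E E', β A < E) :
    ∃ b m δ : ℝ, 0 < m ∧ 0 < δ ∧ δ ≤ η ∧ A₀ < E - 2 * δ ∧ b + 3 * m ≤ E - 2 * δ ∧
      ∀ A ∈ Icc (E - 2 * δ) E', β A < b := by
  obtain ⟨x, hx, hmax⟩ := isCompact_Icc.exists_isMaxOn (nonempty_Icc.mpr h2.le) hβ.continuousOn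
  have hM := hE x hx
  set M₀ := β x with hM₀
  set θ := (E - M₀) / 4 with hθ
  have hθ0 : 0 < θ := by
    rw [hθ]
    linarith
  have hle : ∀ A ∈ Icc E E', β A ≤ M₀ := fun A hA => hmax hA
  have hnear : ∀ᶠ A in 𝓝 E, β A < M₀ + θ := by
    apply hβ.continuousAt.eventually_lt_const
    have := hle E ⟨le_rfl, h2.le⟩
    linarith
  obtain ⟨ρ, hρ, hball⟩ := Metric.eventually_nhds_iff.mp hnear
  set δ := min (min η (ρ / 3)) (min (θ / 2) ((E - A₀) / 3)) with hδ
  have d1 : δ ≤ η := (min_le_left _ _).trans (min_le_left _ _)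
  have d2 : δ ≤ ρ / 3 := (min_le_left _ _).trans (min_le_right _ _)
  have d3 : δ ≤ θ / 2 := (min_le_right _ _).trans (min_le_left _ _)
  have d4 : δ ≤ (E - A₀) / 3 := (min_le_right _ _).trans (min_le_right _ _)
  have hδ0 : 0 < δ := lt_min (lt_min hη (by linarith)) (lt_min (by linarith) (by linarith))
  refine ⟨M₀ + θ, θ / 2, δ, by linarith, hδ0, d1, by linarith, by linarith, ?_⟩
  intro A hA
  rcases le_or_gt E A with h | h
  · have := hle A ⟨h, hA.2⟩
    linarith
  · apply hball
    rw [Real.dist_eq, abs_lt]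
    constructor
    · have := hA.1
      linarith
    · linarith

/-- The step. -/
theorem step (hP : ParamStmt) (hAb : AbelStmt) : StepStmt := by
  intro β v A₀ E E' η hβ hv h1 h2 hη hE hlt hG
  obtain ⟨b, m, δ, hm, hδ, hδη, ha0, hb3, hβb⟩ := stp_margin hβ.continuous h1 h2 hη hE
  obtain ⟨S, hS, hSpos, hSm⟩ := stp_sqrt hm
  set e := E - δ with he
  set a := E - 2 * δ with ha
  have hae : a < e := by
    rw [he, ha]
    linarith
  -- cutoffs
  set χ : ℝ → ℝ := fun s => 1 - Real.smoothTransition ((s - e) * (2 / δ)) with hχ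
  have hχs : ContDiff ℝ ∞ χ := by
    apply contDiff_const.sub
    apply Real.smoothTransition.contDiff.comp
    fun_prop
  have hχ1 : ∀ s ≤ e, χ s = 1 := by
    intro s hs
    simp only [hχ]
    rw [Real.smoothTransition.zero_of_nonpos, sub_zero]
    have : 0 < 2 / δ := by positivity
    nlinarith
  have hχ0 : ∀ s, E ≤ s → χ s = 0 := by
    intro s hs
    simp only [hχ]
    rw [Real.smoothTransition.one_of_one_le, sub_self]
    rw [← div_le_iff₀ (by positivity)]
    have : 1 / (2 / δ) = δ / 2 := by field_simp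
    rw [this, he]
    linarith
  set lam : ℝ → ℝ := fun s => Real.smoothTransition ((s - (b + m)) * (1 / m)) with hlam
  have hlams : ContDiff ℝ ∞ lam := by
    apply Real.smoothTransition.contDiff.comp
    fun_prop
  have hlam0 : ∀ s ≤ b + m, lam s = 0 := by
    intro s hs
    apply Real.smoothTransition.zero_of_nonpos
    have : 0 < 1 / m := by positivity
    nlinarith
  have hlam1 : ∀ s, b + 2 * m ≤ s → lam s = 1 := by
    intro s hs
    apply Real.smoothTransition.one_of_one_le
    rw [← div_le_iff₀ (by positivity)]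
    have : 1 / (1 / m) = m := by field_simp
    rw [this]
    linarith
  set vup : ℝ → ℝ := fun s => v s * χ s * lam s with hvup
  set vlow : ℝ → ℝ := fun s => v s * χ s * (1 - lam s) with hvlow
  have hvups : ContDiff ℝ ∞ vup := (hv.mul hχs).mul hlams
  have hvlows : ContDiff ℝ ∞ vlow := (hv.mul hχs).mul (contDiff_const.sub hlams)
  have hup0 : ∀ s ≤ b + m, vup s = 0 := by
    intro s hs
    simp only [hvup, hlam0 s hs, mul_zero]
  have hlow0 : ∀ s, b + 2 * m ≤ s → vlow s = 0 := by
    intro s hs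
    simp only [hvlow, hlam1 s hs, sub_self, mul_zero]
  -- a lower bound for `β`
  have haE' : a ≤ E' := by
    rw [ha]
    linarith
  obtain ⟨y, hy, hmin⟩ := isCompact_Icc.exists_isMinOn (nonempty_Icc.mpr haE')
    hβ.continuous.continuousOn
  set U := 1 + |E' - (b + m)| + |b + 2 * m - β y| with hU
  have hU1 : 1 ≤ U := by
    rw [hU]
    have := abs_nonneg (E' - (b + m))
    have := abs_nonneg (b + 2 * m - β y)
    linarith
  have hUU : U ≤ U ^ 2 := by nlinarith
  have hUup : ∀ A ≤ E', A - (b + m) ≤ U ^ 2 := by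
    intro A hA
    have h3 := le_abs_self (E' - (b + m))
    have h4 := abs_nonneg (b + 2 * m - β y)
    rw [hU] at hUU ⊢
    linarith
  have hUlow : ∀ A ∈ Icc a E', b + 2 * m - β A ≤ U ^ 2 := by
    intro A hA
    have h3 := le_abs_self (b + 2 * m - β y)
    have h4 := abs_nonneg (E' - (b + m))
    have h5 : β y ≤ β A := hmin hA
    rw [hU] at hUU ⊢
    linarith
  -- the right hand side
  set g₀ : ℝ → ℝ := fun A => -((∫ u in (-U)..U, u ^ 2 * vup (A - u ^ 2) * S (A - u ^ 2 - β A)) +
    ∫ u in (-U)..U, u ^ 2 * vlow (β A + u ^ 2) * S (A - β A - u ^ 2)) with hg₀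
  have hg₀s : ContDiff ℝ ∞ g₀ := by
    have p1 := (hP (fun x : (ℝ × ℝ) × ℝ => x.2 ^ 2 * vup (x.1.1 - x.2 ^ 2) *
      S (x.1.1 - x.2 ^ 2 - β x.1.1)) (by fun_prop) (-U) U).comp
      (contDiff_id.prodMk (contDiff_const (c := (0 : ℝ))))
    have p2 := (hP (fun x : (ℝ × ℝ) × ℝ => x.2 ^ 2 * vlow (β x.1.1 + x.2 ^ 2) *
      S (x.1.1 - β x.1.1 - x.2 ^ 2)) (by fun_prop) (-U) U).comp
      (contDiff_id.prodMk (contDiff_const (c := (0 : ℝ))))
    exact (p1.add p2).neg
  have hg₀eq : ∀ A ∈ Icc a E', g₀ A = -GG β (fun s => v s * χ s) A := by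
    intro A hA
    have hAb := hβb A hA
    have hA1 : a ≤ A := hA.1
    simp only [hg₀, GG]
    rw [← stp_up_int hup0 (by linarith) (hUup A hA.2), ← stp_low_int hlow0 (by linarith)
      (hUlow A hA), ← stp_up hm hS.continuous hSm hvups.continuous hup0 (by linarith)
      (by linarith), ← stp_low hm hS.continuous hSm hvlows.continuous hlow0 (by linarith)
      (by linarith), ← intervalIntegral.integral_add]
    · congr 1
      apply intervalIntegral.integral_congr
      intro s _
      simp only [hvup, hvlow]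
      ring
    · apply Continuous.intervalIntegrable
      have := hvups.continuous
      fun_prop
    · apply Continuous.intervalIntegrable
      have := hvlows.continuous
      fun_prop
  have hGcong : ∀ A ∈ Ioc A₀ e, ∀ w : ℝ → ℝ, (∀ s ≤ e, w s = v s) → GG β w A = 0 := by
    intro A hA w hw
    have hAE : A ∈ Ioc A₀ E := ⟨hA.1, hA.2.trans (by rw [he]; linarith)⟩
    rw [← hG A hAE]
    simp only [GG]
    apply intervalIntegral.integral_congr
    intro s hs
    rw [uIcc_of_le (hlt A hAE).le] at hs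
    simp only
    rw [hw s (hs.2.trans hA.2)]
  have hg₀0 : ∀ A ∈ Icc a e, g₀ A = 0 := by
    intro A hA
    have hAE' : A ∈ Icc a E' := ⟨hA.1, hA.2.trans (by rw [he]; linarith)⟩
    rw [hg₀eq A hAE', hGcong A ⟨by linarith [hA.1], hA.2⟩ _ (fun s hs => by rw [hχ1 s hs, mul_one]),
      neg_zero]
  set g : ℝ → ℝ := fun A => if A ≤ e then 0 else g₀ A with hg
  have hgs : ContDiff ℝ ∞ g := by
    rw [contDiff_iff_contDiffAt]
    intro x
    rcases lt_or_ge x e with hx | hx
    · have : g =ᶠ[𝓝 x] fun _ => 0 := by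
        filter_upwards [Iio_mem_nhds hx] with A hA
        simp only [hg, if_pos (le_of_lt (mem_Iio.mp hA))]
      exact contDiffAt_const.congr_of_eventuallyEq this
    · have : g =ᶠ[𝓝 x] g₀ := by
        filter_upwards [Ioi_mem_nhds (lt_of_lt_of_le hae hx)] with A hA
        simp only [hg]
        split_ifs with h
        · rw [hg₀0 A ⟨le_of_lt (mem_Ioi.mp hA), h⟩]
        · rfl
      exact hg₀s.contDiffAt.congr_of_eventuallyEq this
  have heE' : e < E' := by
    rw [he]
    linarith
  obtain ⟨w, hws, hw0, hwg⟩ := hAb (fun p => S (p.2 - β p.1)) g e E' (by fun_prop) hgs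
    (fun p => (hSpos _).ne') heE' (fun c hc => by simp only [hg, if_pos hc])
  refine ⟨fun s => v s * χ s + w s, (hv.mul hχs).add hws, ?_, ?_⟩
  · intro s hs
    have hse : s ≤ e := by
      rw [he]
      linarith
    simp only
    rw [hχ1 s hse, hw0 s hse, mul_one, add_zero]
  · intro A hA
    rcases le_or_gt A e with hAe | hAe
    · apply hGcong A ⟨hA.1, hAe⟩
      intro s hs
      rw [hχ1 s hs, hw0 s hs, mul_one, add_zero]
    · have hAa : A ∈ Icc a E' := ⟨hae.le.trans hAe.le, hA.2⟩
      have hAb' := hβb A hAa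
      have hA1 : a ≤ A := hAa.1
      have hsplit : GG β (fun s => v s * χ s + w s) A = GG β (fun s => v s * χ s) A + GG β w A := by
        simp only [GG]
        rw [← intervalIntegral.integral_add]
        · apply intervalIntegral.integral_congr
          intro s _
          simp only
          ring
        · apply Continuous.intervalIntegrable
          have h5 := hv.continuous
          have h6 := hχs.continuous
          fun_prop
        · apply Continuous.intervalIntegrable
          have h5 := hws.continuous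
          fun_prop
      have hGw : GG β w A = AK (fun p => S (p.2 - β p.1)) w A := by
        simp only [GG, AK]
        exact stp_up hm hS.continuous hSm hws.continuous hw0 (by linarith) (by linarith)
      rw [hsplit, hGw, hwg A hA.2]
      simp only [hg, if_neg (not_le.mpr hAe)]
      rw [hg₀eq A hAa]
      ring

end Pool.Agent.Lib.MP_9de1de_an.Q2
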