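import Mathlib
import Pool.Agent.Lib.MP_9de1de_an.Q2.Defs
import Pool.Agent.Lib.MP_9de1de_an.Q2.Step

/-!
# Assembly: radial data inside `|z| < α` can be prescribed
-/

set_option autoImplicit false

namespace Pool.Agent.Lib.MP_9de1de_an.Q2

open MeasureTheory Set Filter Topology
open scoped ContDiff

/-- `g ∘ sqrt` is smooth if `g` vanishes near `(-∞, 0]` -/
theorem mai_comp {g : ℝ → ℝ} {p : ℝ} (hg : ContDiff ℝ ∞ g) (hp : 0 < p)
    (h0 : ∀ t ≤ p, g t = 0) : ContDiff ℝ ∞ (fun s => g (Real.sqrt s)) := by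
  rw [contDiff_iff_contDiffAt]
  intro s
  rcases lt_or_ge s (p ^ 2) with hs | hs
  · have h1 : (fun s => g (Real.sqrt s)) =ᶠ[𝓝 s] fun _ => 0 := by
      filter_upwards [Iio_mem_nhds hs] with t ht
      apply h0
      rw [Real.sqrt_le_left hp.le]
      exact le_of_lt ht
    exact contDiffAt_const.congr_of_eventuallyEq h1
  · have hs0 : s ≠ 0 := by
      have : 0 < p ^ 2 := by positivity
      linarith
    exact hg.contDiffAt.comp s (Real.contDiffAt_sqrt hs0)

/-- the inequality between the two ends of the interval -/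
theorem mai_kappa {α : ℝ} (h0 : 0 < α) (h1 : α < 1) {y Y : ℝ} (hY0 : 0 < Y) (hY1 : Y < 1 - α)
    (hy1 : Y ≤ (1 + α) * y) (hy2 : y ≤ Y) :
    (1 - (1 + α) / (1 - α) * y) ^ 2 < (1 - Y) ^ 2 := by
  have h2 : 0 < 1 - α := by linarith
  have h3 : Y < (1 + α) / (1 - α) * y := by
    rw [div_mul_eq_mul_div, lt_div_iff₀ h2]
    have := mul_pos h0 hY0
    nlinarith
  have h4 : (1 + α) / (1 - α) * y < 2 - Y := by
    rw [div_mul_eq_mul_div, div_lt_iff₀ h2]
    have := mul_le_mul_of_nonneg_left hy2 (show (0 : ℝ) ≤ 1 + α by linarith)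
    nlinarith
  apply sq_lt_sq'
  · linarith
  · linarith

/-- the function `β`, smooth on the line -/
theorem mai_beta {α : ℝ} (h0 : 0 < α) : ∃ β : ℝ → ℝ, ContDiff ℝ ∞ β ∧
    ∀ A, α ^ 2 ≤ A → β A = (1 - (1 + α) / (1 - α) * (1 - Real.sqrt A)) ^ 2 := by
  obtain ⟨S, hS, -, hSm⟩ := stp_sqrt (m := α ^ 2) (by positivity)
  refine ⟨fun A => (1 - (1 + α) / (1 - α) * (1 - S A)) ^ 2, ?_, ?_⟩
  · exact (contDiff_const.sub (contDiff_const.mul (contDiff_const.sub hS))).pow 2
  · intro A hA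
    simp only [hSm A hA]

/-- the primitive -/
theorem mai_prim {v' : ℝ → ℝ} (hv : ContDiffOn ℝ ∞ v' (Iio 1)) :
    ContDiffOn ℝ ∞ (fun s => ∫ t in (0 : ℝ)..s, v' t) (Iio 1) ∧
      ∀ s < 1, HasDerivAt (fun s => ∫ t in (0 : ℝ)..s, v' t) (v' s) s := by
  have h1 : ∀ s < 1, HasDerivAt (fun s => ∫ t in (0 : ℝ)..s, v' t) (v' s) s := by
    intro s hs
    apply intervalIntegral.integral_hasDerivAt_right
    · apply ContinuousOn.intervalIntegrable
      apply hv.continuousOn.mono
      intro t ht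
      rw [mem_uIcc] at ht
      simp only [mem_Iio]
      rcases ht with ht | ht
      · linarith [ht.2]
      · linarith [ht.2]
    · exact hv.continuousOn.stronglyMeasurableAtFilter isOpen_Iio s hs
    · exact hv.continuousOn.continuousAt (Iio_mem_nhds hs)
  refine ⟨?_, h1⟩
  rw [contDiffOn_infty_iff_deriv_of_isOpen isOpen_Iio]
  refine ⟨fun s hs => (h1 s hs).differentiableAt.differentiableWithinAt, ?_⟩
  apply hv.congr
  intro s hs
  exact (h1 s hs).deriv

/-- the start: the functional vanishes -/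
theorem mai_zero {β v : ℝ → ℝ} {A c : ℝ} (hβ : c ≤ β A) (hβA : β A ≤ A)
    (hv : ∀ s, c ≤ s → v s = 0) : GG β v A = 0 := by
  unfold GG
  have h1 : ∫ s in (β A)..A, v s * Real.sqrt ((A - s) * (s - β A)) =
      ∫ s in (β A)..A, (0 : ℝ) := by
    apply intervalIntegral.integral_congr
    intro s hs
    rw [uIcc_of_le hβA] at hs
    simp only
    rw [hv s (le_trans hβ hs.1), zero_mul]
  rw [h1, intervalIntegral.integral_zero]

/-- the theorem from the two main modules -/
theorem main (hL : LimitStmt) (hC : CircleStmt) : MainStmt := by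
  intro α h0 h1 g hg hsupp
  obtain ⟨p, q, q', hp, hq0, hqq, hq, hz1, hz2⟩ : ∃ p q q' : ℝ, 0 < p ∧ 0 < q' ∧ q' < q ∧ q < α ∧
      (∀ t ≤ p, g t = 0) ∧ (∀ t, q' ≤ t → g t = 0) := by
    obtain ⟨p, q, hp, hq, h⟩ := hsupp
    have h2 : max q (α / 2) < α := max_lt hq (by linarith)
    exact ⟨p, (max q (α / 2) + α) / 2, max q (α / 2), hp, lt_of_lt_of_le (by linarith)
      (le_max_right _ _), by linarith, by linarith, fun t ht => h t (Or.inl ht),
      fun t ht => h t (Or.inr (le_trans (le_max_left _ _) ht))⟩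
  have h2 : 0 < 1 - α := by linarith
  have h3 : 0 < 1 + α := by linarith
  set F₀ : ℝ → ℝ := fun s => g (Real.sqrt s) with hF₀
  have hF₀s : ContDiff ℝ ∞ F₀ := mai_comp hg hp hz1
  have hvs : ContDiff ℝ ∞ (deriv F₀) := (contDiff_infty_iff_deriv.mp hF₀s).2
  have hv0 : ∀ s, q ^ 2 ≤ s → deriv F₀ s = 0 := by
    intro s hs
    have h4 : q' ^ 2 < s := lt_of_lt_of_le (by nlinarith) hs
    have h5 : F₀ =ᶠ[𝓝 s] fun _ => 0 := by
      filter_upwards [Ioi_mem_nhds h4] with t ht
      apply hz2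
      apply Real.le_sqrt_of_sq_le
      exact le_of_lt ht
    rw [h5.deriv_eq]
    exact deriv_const s 0
  obtain ⟨β, hβs, hβ⟩ := mai_beta h0
  -- the sequence
  set y₀ : ℝ := 1 - (2 * α - (1 - α) * q) / (1 + α) with hy₀
  have hy₀' : (1 + α) * y₀ = (1 - α) * (1 + q) := by
    rw [hy₀, mul_sub, mul_div_cancel₀ _ h3.ne']
    ring
  have hy₀0 : 0 < y₀ := by
    have : 0 < (1 - α) * (1 + q) := by
      apply mul_pos h2
      linarith
    rw [← hy₀'] at this
    exact (pos_iff_pos_of_mul_pos this).mp h3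
  have hy₀1 : y₀ < 1 - α := by
    by_contra hc
    push Not at hc
    have := mul_le_mul_of_nonneg_left hc h3.le
    nlinarith
  set y : ℕ → ℝ := fun n => y₀ * ((1 + α)⁻¹) ^ n with hy
  have hy0 : y 0 = y₀ := by simp [hy]
  have hyp : ∀ n, 0 < y n := fun n => by positivity
  have hysucc : ∀ n, (1 + α) * y (n + 1) = y n := by
    intro n
    simp only [hy, pow_succ]
    field_simp
  have hylt : ∀ n, y (n + 1) < y n := by
    intro n
    have := hysucc n
    have := mul_pos h0 (hyp (n + 1))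
    nlinarith
  have hyanti : StrictAnti y := strictAnti_nat_of_succ_lt hylt
  have hyle : ∀ n, y n ≤ y₀ := by
    intro n
    rw [← hy0]
    exact hyanti.antitone (Nat.zero_le n)
  have hy1 : ∀ n, y n < 1 - α := fun n => lt_of_le_of_lt (hyle n) hy₀1
  have hytend : Tendsto y atTop (𝓝 0) := by
    have h4 : Tendsto (fun n : ℕ => ((1 + α)⁻¹) ^ n) atTop (𝓝 0) := by
      apply tendsto_pow_atTop_nhds_zero_of_lt_one (by positivity)
      exact inv_lt_one_of_one_lt₀ (by linarith)
    have h5 := h4.const_mul y₀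
    rwa [mul_zero] at h5
  set E : ℕ → ℝ := fun n => (1 - y n) ^ 2 with hE
  have hE0 : α ^ 2 < E 0 := by
    simp only [hE]
    have := hy1 0
    apply sq_lt_sq'
    · linarith
    · linarith
  have hEmono : StrictMono E := by
    intro a b hab
    have h4 := hyanti hab
    have h5 := hy1 a
    simp only [hE]
    apply sq_lt_sq'
    · linarith
    · linarith
  have hE1 : ∀ n, E n < 1 := by
    intro n
    have h4 := hyp n
    have h5 := hy1 n
    simp only [hE]
    nlinarith
  have hEα : ∀ n, α ^ 2 < E n := fun n =>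
    lt_of_lt_of_le hE0 (hEmono.monotone (Nat.zero_le n))
  have hEtend : Tendsto E atTop (𝓝 1) := by
    have h4 : Tendsto (fun n => (1 - y n) ^ 2) atTop (𝓝 ((1 - 0) ^ 2)) :=
      (tendsto_const_nhds.sub hytend).pow 2
    simpa using h4
  have hstep : ∀ n, ∀ A ∈ Icc (E n) (E (n + 1)), β A < E n := by
    intro n A hA
    rw [hβ A (le_trans (hEα n).le hA.1)]
    have h4 : 1 - y n ≤ Real.sqrt A := Real.le_sqrt_of_sq_le hA.1
    have h5 : Real.sqrt A ≤ 1 - y (n + 1) := by
      rw [Real.sqrt_le_left (by linarith [hy1 (n + 1)])]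
      exact hA.2
    apply mai_kappa h0 h1 (hyp n) (hy1 n)
    · rw [← hysucc n]
      apply mul_le_mul_of_nonneg_left _ h3.le
      linarith
    · linarith
  have hβlt : ∀ A, α ^ 2 < A → A < 1 → β A < A := by
    intro A hA hA1
    rw [hβ A hA.le]
    have hA0 : 0 ≤ A := le_trans (by positivity) hA.le
    have h4 : Real.sqrt A < 1 := by
      rw [Real.sqrt_lt' one_pos]
      simpa using hA1
    have h5 : α < Real.sqrt A := Real.lt_sqrt_of_sq_lt hA
    have h6 := mai_kappa h0 h1 (y := 1 - Real.sqrt A) (Y := 1 - Real.sqrt A) (by linarith)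
      (by linarith) (by nlinarith) le_rfl
    have h7 : (1 - (1 - Real.sqrt A)) ^ 2 = A := by
      rw [sub_sub_cancel, Real.sq_sqrt hA0]
    rwa [h7] at h6
  have hstart : ∀ A ∈ Ioc (α ^ 2) (E 0), GG β (deriv F₀) A = 0 := by
    intro A hA
    apply mai_zero (c := q ^ 2) _ (hβlt A hA.1 (lt_of_le_of_lt hA.2 (hE1 0))).le hv0
    rw [hβ A hA.1.le]
    have h4 : Real.sqrt A ≤ 1 - y₀ := by
      rw [Real.sqrt_le_left (by linarith [hy₀1])]
      have := hA.2
      simp only [hE, hy0] at this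
      exact this
    have h5 : 1 + q ≤ (1 + α) / (1 - α) * (1 - Real.sqrt A) := by
      rw [div_mul_eq_mul_div, le_div_iff₀ h2]
      have := mul_le_mul_of_nonneg_left (show y₀ ≤ 1 - Real.sqrt A by linarith) h3.le
      rw [hy₀'] at this
      linarith
    nlinarith
  obtain ⟨v', hv's, hv'e, hv'0⟩ := hL β (deriv F₀) (α ^ 2) E (E 0 - α ^ 2) hβs hvs hE0
    (by linarith) hEmono hE1 hEtend hstep hβlt hstart
  obtain ⟨hFs, hFd⟩ := mai_prim hv's
  set F : ℝ → ℝ := fun s => ∫ t in (0 : ℝ)..s, v' t with hF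
  have hFα : ∀ s, 0 ≤ s → s ≤ α ^ 2 → F s = g (Real.sqrt s) := by
    intro s hs0 hs
    have h4 : F s = ∫ t in (0 : ℝ)..s, deriv F₀ t := by
      simp only [hF]
      apply intervalIntegral.integral_congr
      intro t ht
      rw [uIcc_of_le hs0] at ht
      exact hv'e t (by linarith [ht.2])
    have h5 : ∫ t in (0 : ℝ)..s, deriv F₀ t = F₀ s - F₀ 0 := by
      apply intervalIntegral.integral_deriv_eq_sub
      · intro t _
        exact (contDiff_infty_iff_deriv.mp hF₀s).1 t
      · exact hvs.continuous.intervalIntegrable _ _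
    rw [h4, h5]
    simp only [hF₀, Real.sqrt_zero]
    rw [hz1 0 hp.le, sub_zero]
  refine ⟨F, hFs, ?_, ?_⟩
  · intro z hz
    rw [hFα (‖z‖ ^ 2) (by positivity) (by
      apply pow_le_pow_left₀ (norm_nonneg z) hz), Real.sqrt_sq (norm_nonneg z)]
  · intro z hz
    rcases eq_or_lt_of_le (norm_nonneg z) with hz0 | hz0
    · have hz00 : z = 0 := norm_eq_zero.mp hz0.symm
      rw [hz00, norm_zero, sub_zero, mul_one]
      simp only [circleIntegral]
      have h4 : ∀ θ : ℝ, ‖circleMap 0 α θ‖ = α := by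
        intro θ
        simp [circleMap, abs_of_pos h0]
      have h5 : F (α ^ 2) = 0 := by
        rw [hFα (α ^ 2) (by positivity) le_rfl, Real.sqrt_sq h0.le]
        exact hz2 α (by linarith)
      simp only [h4, h5]
      simp
    · have hr : 0 < α * (1 - ‖z‖) := mul_pos h0 (by linarith)
      have hlt : ‖z‖ + α * (1 - ‖z‖) < 1 := by nlinarith
      have hgt : α < ‖z‖ + α * (1 - ‖z‖) := by nlinarith
      rw [hC F v' z (α * (1 - ‖z‖)) hFd hv's.continuousOn hz0 hr hlt]
      have hA1 : α ^ 2 < (‖z‖ + α * (1 - ‖z‖)) ^ 2 := by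
        apply sq_lt_sq'
        · linarith
        · exact hgt
      have hA2 : (‖z‖ + α * (1 - ‖z‖)) ^ 2 < 1 := by nlinarith
      have h4 := hv'0 _ hA1 hA2
      have h5 : β ((‖z‖ + α * (1 - ‖z‖)) ^ 2) = (‖z‖ - α * (1 - ‖z‖)) ^ 2 := by
        rw [hβ _ hA1.le, Real.sqrt_sq (by linarith)]
        congr 1
        field_simp
        ring
      unfold GG at h4
      rw [h5] at h4
      rw [h4]
      simp

end Pool.Agent.Lib.MP_9de1de_an.Q2
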