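import Pool.Agent.Lib.MP_9de1de_an.Q2.Defs

/-!
# Parametric integrals of smooth functions
-/

set_option autoImplicit false

namespace Pool.Agent.Lib.MP_9de1de_an.Q2

open MeasureTheory Set Filter Topology
open scoped ContDiff

variable {E : Type} [NormedAddCommGroup E] [NormedSpace ℝ E] [ProperSpace E]

/-- The integral over a fixed interval of a `C^1` function of a parameter is differentiable. -/
theorem par_hasFDerivAt {F : Type} [NormedAddCommGroup F] [NormedSpace ℝ F] [CompleteSpace F]
    (Φ : E × ℝ → F) (hΦ : Differentiable ℝ Φ)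
    (hΦ' : Continuous (fun p => fderiv ℝ Φ p)) (a b : ℝ) (x₀ : E) :
    HasFDerivAt (fun x : E => ∫ u in a..b, Φ (x, u))
      (∫ u in a..b, (fderiv ℝ Φ (x₀, u)).comp (ContinuousLinearMap.inl ℝ E ℝ)) x₀ := by
  have hc : Continuous (fun p : E × ℝ =>
      (fderiv ℝ Φ p).comp (ContinuousLinearMap.inl ℝ E ℝ)) := by
    exact hΦ'.clm_comp continuous_const
  obtain ⟨C, hC⟩ := ((isCompact_closedBall x₀ 1).prod (isCompact_uIcc (a := a) (b := b))).exists_bound_of_continuousOn
    (f := fun p : E × ℝ => (fderiv ℝ Φ p).comp (ContinuousLinearMap.inl ℝ E ℝ)) hc.continuousOn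
  apply intervalIntegral.hasFDerivAt_integral_of_dominated_of_fderiv_le
    (F := fun x u => Φ (x, u))
    (F' := fun x u => (fderiv ℝ Φ (x, u)).comp (ContinuousLinearMap.inl ℝ E ℝ))
    (s := Metric.ball x₀ 1) (bound := fun _ => C)
  · exact Metric.ball_mem_nhds _ one_pos
  · apply Filter.Eventually.of_forall
    intro x
    apply Continuous.aestronglyMeasurable
    exact hΦ.continuous.comp (by fun_prop)
  · apply Continuous.intervalIntegrable
    exact hΦ.continuous.comp (by fun_prop)
  · apply Continuous.aestronglyMeasurable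
    exact hc.comp (by fun_prop : Continuous fun u : ℝ => (x₀, u))
  · apply Filter.Eventually.of_forall
    intro u hu x hx
    exact hC (x, u) ⟨Metric.ball_subset_closedBall hx, uIoc_subset_uIcc hu⟩
  · exact intervalIntegrable_const
  · apply Filter.Eventually.of_forall
    intro u _ x _
    have h1 : HasFDerivAt Φ (fderiv ℝ Φ (x, u)) (x, u) := (hΦ (x, u)).hasFDerivAt
    have h2 : HasFDerivAt (fun y : E => (y, u)) (ContinuousLinearMap.inl ℝ E ℝ) x :=
      hasFDerivAt_prodMk_left x u
    exact h1.comp x h2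

/-- The integral over a fixed interval of a `C^n` function of a parameter is `C^n`. -/
theorem par_nat (n : ℕ) : ∀ {F : Type} [NormedAddCommGroup F] [NormedSpace ℝ F] [CompleteSpace F]
    (Φ : E × ℝ → F), ContDiff ℝ n Φ → ∀ a b : ℝ,
      ContDiff ℝ n (fun x : E => ∫ u in a..b, Φ (x, u)) := by
  induction n with
  | zero =>
    intro F _ _ _ Φ hΦ a b
    rw [Nat.cast_zero, contDiff_zero] at hΦ ⊢
    apply intervalIntegral.continuous_parametric_intervalIntegral_of_continuous'
    exact hΦ
  | succ n ih =>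
    intro F _ _ _ Φ hΦ a b
    rw [Nat.cast_succ, contDiff_succ_iff_hasFDerivAt]
    have hΦ1 : Differentiable ℝ Φ := hΦ.differentiable (by simp)
    have hΦ2 : ContDiff ℝ n (fun p => fderiv ℝ Φ p) :=
      hΦ.fderiv_right (by simp)
    refine ⟨fun x => ∫ u in a..b,
      (fderiv ℝ Φ (x, u)).comp (ContinuousLinearMap.inl ℝ E ℝ), ?_, ?_⟩
    · apply ih (fun p : E × ℝ => (fderiv ℝ Φ p).comp (ContinuousLinearMap.inl ℝ E ℝ))
      exact hΦ2.clm_comp contDiff_const
    · intro x
      exact par_hasFDerivAt Φ hΦ1 hΦ2.continuous a b x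

/-- The integral over a fixed interval of a smooth function of a parameter is smooth. -/
theorem par_smooth {F : Type} [NormedAddCommGroup F] [NormedSpace ℝ F] [CompleteSpace F]
    (Φ : E × ℝ → F) (hΦ : ContDiff ℝ ∞ Φ) (a b : ℝ) :
    ContDiff ℝ ∞ (fun x : E => ∫ u in a..b, Φ (x, u)) := by
  rw [contDiff_infty] at hΦ ⊢
  exact fun n => par_nat n Φ (hΦ n) a b

theorem param : ParamStmt := fun Φ hΦ a b => par_smooth Φ hΦ a b

end Pool.Agent.Lib.MP_9de1de_an.Q2
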