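import Pool.Agent.Lib.MP_9de1de_an.Q2.Defs

/-!
# Polar coordinates: the operators `J J` and `J` after the operator of the first kind
-/

set_option autoImplicit false

namespace Pool.Agent.Lib.MP_9de1de_an.Q2

open MeasureTheory Set Filter Topology
open scoped ContDiff

/-- Polar coordinates for a continuous function vanishing outside a disc. -/
theorem pol_polar (f : ℝ × ℝ → ℝ) (hf : Continuous f) (R : ℝ) (hR : 0 ≤ R)
    (h0 : ∀ p : ℝ × ℝ, R ^ 2 ≤ p.1 ^ 2 + p.2 ^ 2 → f p = 0) :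
    ∫ u : ℝ, ∫ v : ℝ, f (u, v) =
      ∫ r in (0 : ℝ)..R, ∫ θ in (-Real.pi)..Real.pi, r * f (r * Real.cos θ, r * Real.sin θ) := by
  have hpi := Real.pi_pos
  have hcs : HasCompactSupport f := by
    apply HasCompactSupport.intro (K := Icc (-R) R ×ˢ Icc (-R) R) (isCompact_Icc.prod isCompact_Icc)
    intro p hp
    apply h0
    by_contra hlt
    push Not at hlt
    apply hp
    have h1 : p.1 ^ 2 ≤ R ^ 2 := by nlinarith [sq_nonneg p.2]
    have h2 : p.2 ^ 2 ≤ R ^ 2 := by nlinarith [sq_nonneg p.1]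
    have h3 := abs_le_of_sq_le_sq' h1 hR
    have h4 := abs_le_of_sq_le_sq' h2 hR
    exact ⟨⟨h3.1, h3.2⟩, ⟨h4.1, h4.2⟩⟩
  have hint : Integrable f (volume.prod volume) := by
    rw [← Measure.volume_eq_prod]
    exact hf.integrable_of_hasCompactSupport hcs
  rw [← integral_prod f hint, ← Measure.volume_eq_prod, ← integral_comp_polarCoord_symm]
  set F : ℝ × ℝ → ℝ := fun p => p.1 * f (p.1 * Real.cos p.2, p.1 * Real.sin p.2) with hF
  have hFc : Continuous F := by
    simp only [hF]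
    fun_prop
  have hF0 : ∀ p : ℝ × ℝ, R ≤ p.1 → F p = 0 := by
    intro p hp
    simp only [hF]
    rw [h0, mul_zero]
    have : (p.1 * Real.cos p.2) ^ 2 + (p.1 * Real.sin p.2) ^ 2 = p.1 ^ 2 := by
      have := Real.sin_sq_add_cos_sq p.2
      nlinarith
    simp only
    rw [this]
    exact pow_le_pow_left₀ hR hp 2
  have e1 : (∫ p in polarCoord.target, p.1 • f (polarCoord.symm p)) =
      ∫ p in (Ioi (0 : ℝ) ×ˢ Ioo (-Real.pi) Real.pi), F p := by
    simp only [polarCoord_target, polarCoord_symm_apply, smul_eq_mul, hF]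
  rw [e1]
  have hI : IntegrableOn F (Ioi (0 : ℝ) ×ˢ Ioo (-Real.pi) Real.pi) := by
    have h1 : IntegrableOn F (Icc 0 R ×ˢ Icc (-Real.pi) Real.pi) :=
      hFc.continuousOn.integrableOn_compact (isCompact_Icc.prod isCompact_Icc)
    apply h1.of_forall_sdiff_eq_zero (measurableSet_Ioi.prod measurableSet_Ioo)
    rintro p ⟨⟨hp1, hp2⟩, hp3⟩
    apply hF0
    by_contra hlt
    push Not at hlt
    exact hp3 ⟨⟨le_of_lt hp1, hlt.le⟩, ⟨hp2.1.le, hp2.2.le⟩⟩
  rw [Measure.volume_eq_prod, setIntegral_prod F (by rw [← Measure.volume_eq_prod]; exact hI)]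
  rw [intervalIntegral.integral_of_le hR]
  have e2 : (∫ x in Ioi (0 : ℝ), ∫ y in Ioo (-Real.pi) Real.pi, F (x, y)) =
      ∫ x in Ioi (0 : ℝ), ∫ y in (-Real.pi)..Real.pi, F (x, y) := by
    congr 1
    ext x
    rw [intervalIntegral.integral_of_le (by linarith), integral_Ioc_eq_integral_Ioo]
  rw [e2]
  apply (setIntegral_eq_of_subset_of_forall_sdiff_eq_zero measurableSet_Ioi
    Ioc_subset_Ioi_self ?_).trans
  · rfl
  · rintro x ⟨hx1, hx2⟩
    have hx3 : R ≤ x := by
      by_contra hlt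
      push Not at hlt
      exact hx2 ⟨hx1, hlt.le⟩
    have : ∀ y, F (x, y) = 0 := fun y => hF0 (x, y) hx3
    simp [this]

/-- the change of variables `s = c - r²` -/
theorem pol_subst (g : ℝ → ℝ) (hg : Continuous g) (e c : ℝ) (hec : e ≤ c) :
    ∫ r in (0 : ℝ)..(Real.sqrt (c - e)), r * g (c - r ^ 2) = (1 / 2) * ∫ s in e..c, g s := by
  have h1 : (∫ r in (0 : ℝ)..(Real.sqrt (c - e)), (g ∘ fun r => c - r ^ 2) r * (-(2 * r))) =
      ∫ s in (c - 0 ^ 2)..(c - (Real.sqrt (c - e)) ^ 2), g s := by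
    apply intervalIntegral.integral_comp_mul_deriv
    · intro x _
      have := (hasDerivAt_pow 2 x).const_sub c
      simpa using this
    · fun_prop
    · exact hg
  rw [Real.sq_sqrt (by linarith)] at h1
  have h2 : (c - 0 ^ 2 : ℝ) = c := by ring
  have h3 : c - (c - e) = e := by ring
  rw [h2, h3, intervalIntegral.integral_symm e c] at h1
  have h4 : (∫ r in (0 : ℝ)..(Real.sqrt (c - e)), r * g (c - r ^ 2)) =
      (-1 / 2) * ∫ r in (0 : ℝ)..(Real.sqrt (c - e)), (g ∘ fun r => c - r ^ 2) r * (-(2 * r)) := by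
    rw [← intervalIntegral.integral_const_mul]
    congr 1
    ext r
    simp only [Function.comp]
    ring
  rw [h4, h1]
  ring

theorem jj : JJStmt := by
  intro h e hh h0 c hc
  have key := pol_polar (fun p : ℝ × ℝ => h (c - p.1 ^ 2 - p.2 ^ 2)) (by fun_prop)
    (Real.sqrt (c - e)) (Real.sqrt_nonneg _) (by
      intro p hp
      rw [Real.sq_sqrt (by linarith)] at hp
      exact h0 _ (by linarith))
  have e1 : AJ (AJ h) c = ∫ u : ℝ, ∫ v : ℝ, (fun p : ℝ × ℝ => h (c - p.1 ^ 2 - p.2 ^ 2)) (u, v) := by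
    rfl
  rw [e1]
  refine key.trans ?_
  · have e2 : ∀ r : ℝ, (∫ θ in (-Real.pi)..Real.pi,
        r * (fun p : ℝ × ℝ => h (c - p.1 ^ 2 - p.2 ^ 2)) (r * Real.cos θ, r * Real.sin θ)) =
        2 * Real.pi * (r * h (c - r ^ 2)) := by
      intro r
      have e3 : ∀ θ : ℝ, r * (fun p : ℝ × ℝ => h (c - p.1 ^ 2 - p.2 ^ 2))
          (r * Real.cos θ, r * Real.sin θ) = r * h (c - r ^ 2) := by
        intro θ
        have : c - (r * Real.cos θ) ^ 2 - (r * Real.sin θ) ^ 2 = c - r ^ 2 := by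
          have := Real.sin_sq_add_cos_sq θ
          nlinarith
        simp only
        rw [this]
      simp only [e3, intervalIntegral.integral_const, smul_eq_mul]
      ring
    simp only [e2]
    rw [intervalIntegral.integral_const_mul, pol_subst h hh e c hc]
    ring

theorem jk : JKStmt := by
  intro K w e hK hw h0 c hc
  have key := pol_polar (fun p : ℝ × ℝ => p.2 ^ 2 * w (c - p.1 ^ 2 - p.2 ^ 2) *
        K (c - p.1 ^ 2, c - p.1 ^ 2 - p.2 ^ 2)) (by fun_prop)
    (Real.sqrt (c - e)) (Real.sqrt_nonneg _) (by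
      intro p hp
      rw [Real.sq_sqrt (by linarith)] at hp
      rw [h0 _ (by linarith)]
      ring)
  have e1 : AJ (AK K w) c = ∫ u : ℝ, ∫ v : ℝ,
      (fun p : ℝ × ℝ => p.2 ^ 2 * w (c - p.1 ^ 2 - p.2 ^ 2) *
        K (c - p.1 ^ 2, c - p.1 ^ 2 - p.2 ^ 2)) (u, v) := by
    rfl
  rw [e1]
  refine key.trans ?_
  · have hM : Continuous (fun s => MM K (c, s)) := by
      unfold MM
      apply intervalIntegral.continuous_parametric_intervalIntegral_of_continuous'
      fun_prop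
    have e2 : ∀ r : ℝ, (∫ θ in (-Real.pi)..Real.pi,
        r * (fun p : ℝ × ℝ => p.2 ^ 2 * w (c - p.1 ^ 2 - p.2 ^ 2) *
          K (c - p.1 ^ 2, c - p.1 ^ 2 - p.2 ^ 2)) (r * Real.cos θ, r * Real.sin θ)) =
        r * (fun s => w s * (c - s) * MM K (c, s)) (c - r ^ 2) := by
      intro r
      simp only [MM]
      rw [← intervalIntegral.integral_const_mul, ← intervalIntegral.integral_const_mul]
      congr 1
      ext θ
      have h2 := Real.sin_sq_add_cos_sq θ
      have h3 : c - (r * Real.cos θ) ^ 2 - (r * Real.sin θ) ^ 2 = c - r ^ 2 := by nlinarith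
      have h4 : c - (r * Real.cos θ) ^ 2 = c - r ^ 2 + (c - (c - r ^ 2)) * Real.sin θ ^ 2 := by
        nlinarith
      rw [h3, h4]
      ring
    simp only [e2]
    exact pol_subst (fun s => w s * (c - s) * MM K (c, s)) (by fun_prop) e c hc

end Pool.Agent.Lib.MP_9de1de_an.Q2
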