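import Pool.Agent.Lib.MP_9de1de_an.Q2.Defs

/-!
# Volterra equations of the second kind with smooth kernel
-/

set_option autoImplicit false

namespace Pool.Agent.Lib.MP_9de1de_an.Q2

open MeasureTheory Set Filter Topology
open scoped ContDiff BoundedContinuousFunction

/-- the partial derivative in the first variable -/
noncomputable def volD (N : ℝ × ℝ → ℝ) (p : ℝ × ℝ) : ℝ := fderiv ℝ N p (1, 0)

theorem volD_contDiff {N : ℝ × ℝ → ℝ} (hN : ContDiff ℝ ∞ N) : ContDiff ℝ ∞ (volD N) := by
  have h1 : ContDiff ℝ ∞ (fderiv ℝ N) := hN.fderiv_right (m := ∞) (by exact le_rfl)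
  exact h1.clm_apply contDiff_const

theorem vol_hasDerivAt_N {N : ℝ × ℝ → ℝ} (hN : ContDiff ℝ ∞ N) (c s : ℝ) :
    HasDerivAt (fun c => N (c, s)) (volD N (c, s)) c := by
  have h1 : HasFDerivAt N (fderiv ℝ N (c, s)) (c, s) :=
    (hN.differentiable (by simp) (c, s)).hasFDerivAt
  have h2 : HasDerivAt (fun c : ℝ => (c, s)) ((1 : ℝ), (0 : ℝ)) c :=
    (hasDerivAt_id c).prodMk (hasDerivAt_const c s)
  exact h1.comp_hasDerivAt c h2

/-- fixed endpoints -/
theorem vol_hasDerivAt_fixed {N : ℝ × ℝ → ℝ} {w : ℝ → ℝ} (hN : ContDiff ℝ ∞ N)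
    (hw : Continuous w) (a b c : ℝ) :
    HasDerivAt (fun c => ∫ s in a..b, N (c, s) * w s) (∫ s in a..b, volD N (c, s) * w s) c := by
  have hNc : Continuous N := hN.continuous
  have hDc : Continuous (volD N) := (volD_contDiff hN).continuous
  have hF' : Continuous (fun p : ℝ × ℝ => volD N p * w p.2) := by fun_prop
  obtain ⟨M, hM⟩ := ((isCompact_closedBall c (1 : ℝ)).prod
    (isCompact_uIcc (a := a) (b := b))).exists_bound_of_continuousOn hF'.continuousOn
  refine (intervalIntegral.hasDerivAt_integral_of_dominated_loc_of_deriv_le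
    (F := fun c s => N (c, s) * w s) (F' := fun c s => volD N (c, s) * w s)
    (bound := fun _ => M) (Metric.closedBall_mem_nhds c one_pos) ?_ ?_ ?_ ?_ ?_ ?_).2
  · refine Eventually.of_forall fun x => ?_
    exact (by fun_prop : Continuous fun s => N (x, s) * w s).aestronglyMeasurable
  · exact (by fun_prop : Continuous fun s => N (c, s) * w s).intervalIntegrable _ _
  · exact (by fun_prop : Continuous fun s => volD N (c, s) * w s).aestronglyMeasurable
  · refine Eventually.of_forall fun s hs x hx => ?_
    exact hM (x, s) ⟨hx, uIoc_subset_uIcc hs⟩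
  · exact intervalIntegrable_const
  · refine Eventually.of_forall fun s _ x _ => ?_
    exact (vol_hasDerivAt_N hN x s).mul_const _

/-- both the integrand and the endpoint move, integral over a short interval -/
theorem vol_hasDerivAt_short {F : ℝ × ℝ → ℝ} (hF : Continuous F) (c : ℝ) :
    HasDerivAt (fun x => ∫ s in c..x, F (x, s)) (F (c, c)) c := by
  rw [hasDerivAt_iff_isLittleO, Asymptotics.isLittleO_iff]
  intro ε hε
  have h1 : ∀ᶠ p in 𝓝 (c, c), ‖F p - F (c, c)‖ ≤ ε := by
    have := (hF.tendsto (c, c)).sub_const (F (c, c))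
    rw [sub_self] at this
    have h2 := this.norm
    rw [norm_zero] at h2
    exact (h2.eventually_lt_const hε).mono fun p hp => hp.le
  rw [Metric.eventually_nhds_iff] at h1
  obtain ⟨δ, hδ, h2⟩ := h1
  filter_upwards [Metric.ball_mem_nhds c hδ] with x hx
  rw [intervalIntegral.integral_same, sub_zero, smul_eq_mul]
  have h3 : (x - c) * F (c, c) = ∫ s in c..x, F (c, c) := by
    rw [intervalIntegral.integral_const, smul_eq_mul]
  rw [h3, ← intervalIntegral.integral_sub
    ((by fun_prop : Continuous fun s => F (x, s)).intervalIntegrable _ _)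
    intervalIntegrable_const, Real.norm_eq_abs (x - c)]
  apply intervalIntegral.norm_integral_le_of_norm_le_const
  intro s hs
  apply h2
  rw [Prod.dist_eq]
  have h4 : dist x c < δ := hx
  refine max_lt h4 (lt_of_le_of_lt ?_ h4)
  have h5 := uIoc_subset_uIcc hs
  rw [Real.dist_eq, Real.dist_eq]
  exact abs_sub_left_of_mem_uIcc h5

/-- derivative of `c ↦ ∫_e^c N(c,s) w(s) ds` -/
theorem vol_hasDerivAt {N : ℝ × ℝ → ℝ} {w : ℝ → ℝ} (hN : ContDiff ℝ ∞ N)
    (hw : Continuous w) (e c : ℝ) :
    HasDerivAt (fun c => ∫ s in e..c, N (c, s) * w s)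
      (N (c, c) * w c + ∫ s in e..c, volD N (c, s) * w s) c := by
  have hNc : Continuous N := hN.continuous
  have h1 : (fun x => ∫ s in e..x, N (x, s) * w s) =
      fun x => (∫ s in c..x, N (x, s) * w s) + ∫ s in e..c, N (x, s) * w s := by
    funext x
    rw [add_comm, intervalIntegral.integral_add_adjacent_intervals]
    · exact (by fun_prop : Continuous fun s => N (x, s) * w s).intervalIntegrable _ _
    · exact (by fun_prop : Continuous fun s => N (x, s) * w s).intervalIntegrable _ _
  rw [h1]
  refine HasDerivAt.add ?_ (vol_hasDerivAt_fixed hN hw e c c)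
  exact vol_hasDerivAt_short (F := fun p => N p * w p.2) (by fun_prop) c

/-- the integral operator gains one derivative -/
theorem vol_gain {w : ℝ → ℝ} {e : ℝ} (n : ℕ) (hw : ContDiff ℝ n w) :
    ∀ N : ℝ × ℝ → ℝ, ContDiff ℝ ∞ N →
      ContDiff ℝ (n + 1 : ℕ) (fun c => ∫ s in e..c, N (c, s) * w s) := by
  induction n with
  | zero =>
    intro N hN
    have hw' : Continuous w := hw.continuous
    have hDc : Continuous (volD N) := (volD_contDiff hN).continuous
    have hNc : Continuous N := hN.continuous
    have hd := fun c => vol_hasDerivAt hN hw' e c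
    rw [Nat.cast_add, Nat.cast_one, contDiff_succ_iff_deriv]
    refine ⟨fun c => (hd c).differentiableAt, by simp, ?_⟩
    have h1 : deriv (fun c => ∫ s in e..c, N (c, s) * w s) =
        fun c => N (c, c) * w c + ∫ s in e..c, volD N (c, s) * w s := by
      funext c; exact (hd c).deriv
    rw [h1, Nat.cast_zero, contDiff_zero]
    refine Continuous.add (by fun_prop) ?_
    exact intervalIntegral.continuous_parametric_intervalIntegral_of_continuous
      (f := fun c s => volD N (c, s) * w s) (by simp only [Function.uncurry_def]; fun_prop)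
      continuous_id
  | succ n ih =>
    intro N hN
    have hw' : Continuous w := hw.continuous
    have hwn : ContDiff ℝ n w := hw.of_le (by exact_mod_cast Nat.le_succ n)
    have hd := fun c => vol_hasDerivAt hN hw' e c
    rw [Nat.cast_add, Nat.cast_one, contDiff_succ_iff_deriv]
    refine ⟨fun c => (hd c).differentiableAt, by simp, ?_⟩
    have h1 : deriv (fun c => ∫ s in e..c, N (c, s) * w s) =
        fun c => N (c, c) * w c + ∫ s in e..c, volD N (c, s) * w s := by
      funext c; exact (hd c).deriv
    rw [h1]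
    refine ContDiff.add (ContDiff.mul ?_ hw) (ih hwn _ (volD_contDiff hN))
    have h2 : ContDiff ℝ ∞ (fun c : ℝ => N (c, c)) := hN.comp (contDiff_id.prodMk contDiff_id)
    exact h2.of_le (by exact_mod_cast le_top)

/-- a continuous solution is smooth -/
theorem vol_smooth {N : ℝ × ℝ → ℝ} {h w : ℝ → ℝ} {e : ℝ} (hN : ContDiff ℝ ∞ N)
    (hh : ContDiff ℝ ∞ h) (hw : Continuous w)
    (heq : ∀ c, w c = h c + ∫ s in e..c, N (c, s) * w s) : ContDiff ℝ ∞ w := by
  rw [contDiff_infty]
  intro n
  induction n with
  | zero => exact contDiff_zero.2 hw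
  | succ n ih =>
    have h1 : w = fun c => h c + ∫ s in e..c, N (c, s) * w s := funext heq
    rw [h1]
    refine ContDiff.add (hh.of_le (by exact_mod_cast le_top)) ?_
    exact vol_gain n ih N hN

/-- the weighted integral is small -/
theorem vol_bound {φ : ℝ → ℝ} {K L : ℝ} (hφ : Continuous φ) (hK : ∀ s, |φ s| ≤ K) (hL : 0 < L)
    (e c : ℝ) : |∫ s in e..max c e, Real.exp (-(L * (c - s))) * φ s| ≤ K / L := by
  have hK0 : 0 ≤ K := (abs_nonneg _).trans (hK 0)
  rcases le_total c e with hc | hc
  · rw [max_eq_right hc, intervalIntegral.integral_same, abs_zero]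
    positivity
  · rw [max_eq_left hc]
    have h1 : |∫ s in e..c, Real.exp (-(L * (c - s))) * φ s| ≤
        ∫ s in e..c, Real.exp (-(L * (c - s))) * K := by
      rw [← Real.norm_eq_abs]
      refine intervalIntegral.norm_integral_le_of_norm_le hc ?_ ?_
      · refine Eventually.of_forall fun s _ => ?_
        rw [Real.norm_eq_abs, abs_mul, abs_of_pos (Real.exp_pos _)]
        exact mul_le_mul_of_nonneg_left (hK s) (Real.exp_pos _).le
      · exact (by fun_prop : Continuous fun s : ℝ =>
          Real.exp (-(L * (c - s))) * K).intervalIntegrable _ _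
    have h2 : ∫ s in e..c, Real.exp (-(L * (c - s))) * K =
        Real.exp (-(L * (c - c))) * K / L - Real.exp (-(L * (c - e))) * K / L := by
      refine intervalIntegral.integral_eq_sub_of_hasDerivAt
        (f := fun s => Real.exp (-(L * (c - s))) * K / L) (fun s _ => ?_)
        ((by fun_prop : Continuous fun s : ℝ =>
          Real.exp (-(L * (c - s))) * K).intervalIntegrable _ _)
      have h3 : HasDerivAt (fun s : ℝ => -(L * (c - s))) L s := by
        have h6 := (((hasDerivAt_id s).const_sub c).const_mul L).neg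
        have h7 : -(L * -1) = L := by ring
        rw [h7] at h6
        exact h6
      have h4 : HasDerivAt (fun s : ℝ => Real.exp (-(L * (c - s))) * K / L)
        (Real.exp (-(L * (c - s))) * L * K / L) s := (h3.exp.mul_const K).div_const L
      have h5 : Real.exp (-(L * (c - s))) * L * K / L = Real.exp (-(L * (c - s))) * K := by
        field_simp
      rw [h5] at h4
      exact h4
    rw [h2, sub_self, mul_zero, neg_zero, Real.exp_zero, one_mul] at h1
    have h5 : 0 ≤ Real.exp (-(L * (c - e))) * K / L := by positivity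
    linarith

/-- existence of a continuous solution for a bounded kernel -/
theorem vol_exists {N : ℝ × ℝ → ℝ} {h : ℝ → ℝ} {e M H : ℝ} (hN : Continuous N)
    (hM : ∀ p, |N p| ≤ M) (hh : Continuous h) (hH : ∀ c, |h c| ≤ H) (h0 : ∀ c ≤ e, h c = 0) :
    ∃ w : ℝ → ℝ, Continuous w ∧ (∀ c ≤ e, w c = 0) ∧
      ∀ c, w c = h c + ∫ s in e..c, N (c, s) * w s := by
  have hM0 : 0 ≤ M := (abs_nonneg _).trans (hM (0, 0))
  set L : ℝ := 2 * M + 1 with hL
  have hLp : 0 < L := by positivity
  have hg : ∀ c, |Real.exp (-(L * (c - e))) * h c| ≤ H := by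
    intro c
    rcases le_total c e with hc | hc
    · rw [h0 c hc, mul_zero, abs_zero]
      exact (abs_nonneg _).trans (hH 0)
    · rw [abs_mul, abs_of_pos (Real.exp_pos _)]
      have h1 : Real.exp (-(L * (c - e))) ≤ 1 := by
        rw [Real.exp_le_one_iff]
        have : 0 ≤ L * (c - e) := mul_nonneg hLp.le (by linarith)
        linarith
      calc _ ≤ 1 * |h c| := mul_le_mul_of_nonneg_right h1 (abs_nonneg _)
        _ ≤ H := by rw [one_mul]; exact hH c
  have hNv : ∀ (v : ℝ →ᵇ ℝ) (c s : ℝ), |N (c, s) * v s| ≤ M * ‖v‖ := by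
    intro v c s
    rw [abs_mul]
    exact mul_le_mul (hM _) (v.norm_coe_le_norm s) (abs_nonneg _) hM0
  have hcont : ∀ v : ℝ →ᵇ ℝ, Continuous (fun c => ∫ s in e..max c e,
      Real.exp (-(L * (c - s))) * (N (c, s) * v s)) := by
    intro v
    have hv : Continuous v := v.continuous
    exact intervalIntegral.continuous_parametric_intervalIntegral_of_continuous
      (f := fun c s => Real.exp (-(L * (c - s))) * (N (c, s) * v s))
      (by simp only [Function.uncurry_def]; fun_prop) (continuous_id.max continuous_const)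
  have hbd : ∀ (v : ℝ →ᵇ ℝ) (c : ℝ), ‖Real.exp (-(L * (c - e))) * h c +
      ∫ s in e..max c e, Real.exp (-(L * (c - s))) * (N (c, s) * v s)‖ ≤ H + M * ‖v‖ / L := by
    intro v c
    have hv : Continuous v := v.continuous
    rw [Real.norm_eq_abs]
    refine (abs_add_le _ _).trans (add_le_add (hg c) ?_)
    exact vol_bound (φ := fun s => N (c, s) * v s) (by fun_prop) (hNv v c) hLp e c
  let Φ : (ℝ →ᵇ ℝ) → (ℝ →ᵇ ℝ) := fun v => BoundedContinuousFunction.ofNormedAddCommGroup
    (fun c => Real.exp (-(L * (c - e))) * h c +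
      ∫ s in e..max c e, Real.exp (-(L * (c - s))) * (N (c, s) * v s))
    (Continuous.add (by fun_prop) (hcont v)) (H + M * ‖v‖ / L) (hbd v)
  have hΦ : ∀ v c, Φ v c = Real.exp (-(L * (c - e))) * h c +
      ∫ s in e..max c e, Real.exp (-(L * (c - s))) * (N (c, s) * v s) := fun v c => rfl
  have hcon : ContractingWith (1 / 2) Φ := by
    refine ⟨by
      rw [← NNReal.coe_lt_coe]; push_cast; norm_num, LipschitzWith.of_dist_le_mul fun v u => ?_⟩
    rw [BoundedContinuousFunction.dist_le (by positivity)]
    intro c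
    have hv : Continuous v := v.continuous
    have hu : Continuous u := u.continuous
    rw [hΦ, hΦ, dist_add_left, Real.dist_eq, ← intervalIntegral.integral_sub
      ((by fun_prop : Continuous fun s : ℝ =>
        Real.exp (-(L * (c - s))) * (N (c, s) * v s)).intervalIntegrable _ _)
      ((by fun_prop : Continuous fun s : ℝ =>
        Real.exp (-(L * (c - s))) * (N (c, s) * u s)).intervalIntegrable _ _)]
    have h1 : ∀ s, Real.exp (-(L * (c - s))) * (N (c, s) * v s) -
        Real.exp (-(L * (c - s))) * (N (c, s) * u s) =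
        Real.exp (-(L * (c - s))) * (N (c, s) * (v - u) s) := by
      intro s
      rw [BoundedContinuousFunction.sub_apply]
      ring
    simp only [h1]
    refine (vol_bound (φ := fun s => N (c, s) * (v - u) s) ?_ (hNv (v - u) c) hLp e c).trans ?_
    · have hvu : Continuous (v - u) := (v - u).continuous
      fun_prop
    · rw [dist_eq_norm]
      push_cast
      rw [div_le_iff₀ hLp, hL]
      have : 0 ≤ ‖v - u‖ := norm_nonneg _
      nlinarith
  set v := ContractingWith.fixedPoint Φ hcon with hv
  have hfix : Φ v = v := hcon.fixedPoint_isFixedPt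
  have hvc : Continuous v := v.continuous
  have hw : ∀ c, Real.exp (L * (c - e)) * v c = h c +
      ∫ s in e..max c e, N (c, s) * (Real.exp (L * (s - e)) * v s) := by
    intro c
    have h1 : v c = Real.exp (-(L * (c - e))) * h c +
      ∫ s in e..max c e, Real.exp (-(L * (c - s))) * (N (c, s) * v s) := by
      conv_lhs => rw [← hfix]
      exact hΦ v c
    rw [h1, mul_add, ← mul_assoc, ← Real.exp_add, add_neg_cancel, Real.exp_zero, one_mul,
      ← intervalIntegral.integral_const_mul]
    congr 1
    apply intervalIntegral.integral_congr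
    intro s _
    simp only
    have h2 : Real.exp (L * (s - e)) = Real.exp (L * (c - e)) * Real.exp (-(L * (c - s))) := by
      rw [← Real.exp_add]; congr 1; ring
    rw [h2]
    ring
  have hw0 : ∀ c ≤ e, Real.exp (L * (c - e)) * v c = 0 := by
    intro c hc
    rw [hw c, max_eq_right hc, intervalIntegral.integral_same, h0 c hc, add_zero]
  refine ⟨fun c => Real.exp (L * (c - e)) * v c, by fun_prop, hw0, fun c => ?_⟩
  rcases le_total c e with hc | hc
  · simp only
    rw [hw0 c hc, h0 c hc, zero_add, intervalIntegral.integral_symm]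
    rw [intervalIntegral.integral_congr (g := fun _ => (0 : ℝ))]
    · simp
    · intro s hs
      rw [uIcc_of_le hc] at hs
      simp only
      rw [hw0 s hs.2, mul_zero]
  · simp only
    rw [hw c, max_eq_left hc]

/-- module B2 -/
theorem volterra : VolterraStmt := by
  intro N h e T hN hh heT h0
  let ψ : ContDiffBump ((e + T) / 2) :=
    ⟨(T - e) / 2, (T - e) / 2 + 1, by linarith, by linarith⟩
  have hψ1 : ∀ c, e ≤ c → c ≤ T → ψ c = 1 := by
    intro c h1 h2
    apply ψ.one_of_mem_closedBall
    rw [Metric.mem_closedBall, Real.dist_eq, abs_le]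
    constructor
    · show -((T - e) / 2) ≤ _
      linarith
    · show _ ≤ (T - e) / 2
      linarith
  have hψc : ContDiff ℝ ∞ (ψ : ℝ → ℝ) := ψ.contDiff
  have hψs : HasCompactSupport (ψ : ℝ → ℝ) := ψ.hasCompactSupport
  have hψb : ∀ c, |ψ c| ≤ 1 := fun c => by
    rw [abs_of_nonneg ψ.nonneg]; exact ψ.le_one
  set N' : ℝ × ℝ → ℝ := fun p => ψ p.1 * ψ p.2 * N p with hN'
  set h' : ℝ → ℝ := fun c => ψ c * h c with hh'
  have hN'c : ContDiff ℝ ∞ N' :=
    ((hψc.comp contDiff_fst).mul (hψc.comp contDiff_snd)).mul hN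
  have hh'c : ContDiff ℝ ∞ h' := hψc.mul hh
  obtain ⟨M, hM⟩ : ∃ M, ∀ p, |N' p| ≤ M := by
    have hK := (isCompact_closedBall ((e + T) / 2) ((T - e) / 2 + 1)).prod
      (isCompact_closedBall ((e + T) / 2) ((T - e) / 2 + 1))
    obtain ⟨M, hM⟩ := hK.exists_bound_of_continuousOn hN'c.continuous.continuousOn
    refine ⟨max M 0, fun p => ?_⟩
    by_cases hp : p ∈ Metric.closedBall ((e + T) / 2) ((T - e) / 2 + 1) ×ˢ
        Metric.closedBall ((e + T) / 2) ((T - e) / 2 + 1)
    · exact (hM p hp).trans (le_max_left _ _)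
    · have h1 : N' p = 0 := by
        rw [mem_prod, not_and_or] at hp
        have hz : ∀ c, c ∉ Metric.closedBall ((e + T) / 2) ((T - e) / 2 + 1) → ψ c = 0 := by
          intro c hc
          apply ψ.zero_of_le_dist
          rw [Metric.mem_closedBall, not_le] at hc
          exact hc.le
        simp only [hN']
        rcases hp with hp | hp
        · rw [hz _ hp, zero_mul, zero_mul]
        · rw [hz _ hp, mul_zero, zero_mul]
      rw [h1, abs_zero]
      exact le_max_right _ _
  obtain ⟨H, hH⟩ := hh'c.continuous.bounded_above_of_compact_support (hψs.mul_right)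
  obtain ⟨w, hwc, hw0, hw⟩ := vol_exists (e := e) hN'c.continuous hM hh'c.continuous
    (fun c => by rw [← Real.norm_eq_abs]; exact hH c)
    (fun c hc => by simp only [hh']; rw [h0 c hc, mul_zero])
  refine ⟨w, vol_smooth hN'c hh'c hwc hw, hw0, fun c hc => ?_⟩
  rcases le_total c e with hce | hce
  · rw [hw0 c hce, h0 c hce, zero_add, intervalIntegral.integral_symm]
    rw [intervalIntegral.integral_congr (g := fun _ => (0 : ℝ))]
    · simp
    · intro s hs
      rw [uIcc_of_le hce] at hs
      simp only
      rw [hw0 s hs.2, mul_zero]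
  · rw [hw c]
    simp only [hh']
    rw [hψ1 c hce hc, one_mul]
    congr 1
    apply intervalIntegral.integral_congr
    intro s hs
    rw [uIcc_of_le hce] at hs
    simp only [hN']
    rw [hψ1 c hce hc, hψ1 s hs.1 (hs.2.trans hc), one_mul, one_mul]

end Pool.Agent.Lib.MP_9de1de_an.Q2
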